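import Pool.Agent.Q278.ES.G

set_option autoImplicit false

/-!
# Zeros of `X` at bad heights (all zeros on the line)
-/

namespace Pool.Agent.Q278.TR

open Complex Set Metric MeasureTheory
open Pool.Agent.H24R2.DZ (NN)
open Pool.Agent.Y671.GL (CF TopL)
open Pool.Agent.Y671.LD (cover)
open Pool.Agent.Q246.SA (Sy)
open Pool.Agent.Q278.ES (Gd GoodE LX nn_up exists_J geo split3)
open scoped ComplexConjugate

variable {κ : ℝ} {H X Z : ℂ → ℂ}

/-- the number of zeros at a good height -/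
theorem x_count (hX : Differentiable ℂ X) {a η r t0 : ℝ} (ha : 1 ≤ a) (hη : η ≤ 1) (hr : 0 < r)
    (hN : NN a η (fun z => X (I * t0 + r * z))) (S : Finset ℂ) (hS : ∀ z ∈ S, ‖z - I * t0‖ ≤ 2 * r) :
    ∑ z ∈ S, (analyticOrderNatAt X z : ℝ) ≤ 80 * a := by
  obtain ⟨N, hNd⟩ : ∃ N : ℂ → ℂ, N = fun z => X (I * t0 + r * z) := ⟨_, rfl⟩
  rw [← hNd] at hN
  have hXN : ∀ z : ℂ, X (I * t0 + r * z) = N z := fun z => by rw [hNd]
  have e4 : ((4 : ℝ) : ℂ) = 4 := by norm_num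
  have hne : X (I * t0 + r * 4) ≠ 0 := by
    rw [hXN]
    have := (hN.far (4 : ℂ) (by norm_num) (by norm_num)).1
    exact this
  have hup : ∀ u ∈ sphere (I * t0 + r * 4 : ℂ) (12 * r), ‖X u‖ ≤ Real.exp (50 * a) * ‖X (I * t0 + r * 4)‖ := by
    intro u hu
    rw [mem_sphere_iff_norm] at hu
    obtain ⟨w, hw⟩ : ∃ w : ℂ, w = (u - I * t0) / r := ⟨_, rfl⟩
    have hrc : (r : ℂ) ≠ 0 := by exact_mod_cast hr.ne'
    have hu2 : u = I * t0 + r * w := by rw [hw]; field_simp; ring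
    have hw1 : ‖w - 4‖ = 12 := by
      have h1 : u - (I * t0 + r * 4) = r * (w - 4) := by rw [hu2]; ring
      rw [h1, norm_mul, Complex.norm_real, Real.norm_of_nonneg hr.le] at hu
      have : r * ‖w - 4‖ = r * 12 := by linarith
      exact mul_left_cancel₀ hr.ne' this
    have hw2 : ‖w‖ ≤ 16 := by
      calc ‖w‖ = ‖(w - 4) + 4‖ := by ring_nf
        _ ≤ ‖w - 4‖ + ‖(4 : ℂ)‖ := norm_add_le _ _
        _ = 16 := by rw [hw1]; norm_num
    rw [hu2, hXN, hXN]
    have h1 := nn_up hN (by linarith) hη (v := 4) (by norm_num) (by norm_num) (w := w) (by linarith)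
    rw [e4] at h1
    exact h1
  have hjc := Pool.Agent.W186.LH.jc hX (c := I * t0 + r * 4) (r := 6 * r) (R := 12 * r)
    (M := Real.exp (50 * a) * ‖X (I * t0 + r * 4)‖) (by positivity) (by linarith) hup hne S (by
      intro z hz
      have h1 := hS z hz
      rw [mem_closedBall, dist_eq_norm]
      have e : z - (I * t0 + r * 4) = (z - I * t0) - r * 4 := by ring
      rw [e]
      refine (norm_sub_le _ _).trans ?_
      rw [norm_mul, Complex.norm_real, Real.norm_of_nonneg hr.le]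
      have : ‖(4 : ℂ)‖ = 4 := by norm_num
      rw [this]
      linarith)
  have e : (12 * r / (6 * r) : ℝ) = 2 := by field_simp; norm_num
  rw [e] at hjc
  obtain ⟨n, hn⟩ : ∃ n : ℕ, n = ∑ z ∈ S, analyticOrderNatAt X z := ⟨_, rfl⟩
  rw [← hn] at hjc
  have hnr : ∑ z ∈ S, (analyticOrderNatAt X z : ℝ) = n := by
    rw [hn]
    push_cast
    rfl
  rw [hnr]
  have h1 : (2 : ℝ) ^ n ≤ Real.exp (50 * a) := le_of_mul_le_mul_right hjc (norm_pos_iff.2 hne)
  have h2 : (n : ℝ) * Real.log 2 ≤ 50 * a := by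
    have h3 := Real.log_le_log (by positivity) h1
    rw [Real.log_pow, Real.log_exp] at h3
    exact h3
  have h3 : (0.69 : ℝ) < Real.log 2 := by
    have := Real.log_two_gt_d9
    linarith
  have hn0 : (0 : ℝ) ≤ n := Nat.cast_nonneg _
  nlinarith

/-- the unit windows -/
theorem x_win (g : LX κ H X Z) : ∃ K : ℝ, 0 < K ∧ ∀ (t : ℝ) (S : Finset ℂ), -1 ≤ t →
    (∀ z ∈ S, |z.re| ≤ 1 / 2 ∧ |z.im - t| ≤ 1 / 2) →
    ∑ z ∈ S, (analyticOrderNatAt X z : ℝ) ≤ K * Real.log (3 + t) := by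
  obtain ⟨K, hK, hbox⟩ := Pool.Agent.Q246.SA.box g.sy g.cf 15 (by norm_num)
  have hl2 : 0 < Real.log 2 := Real.log_pos (by norm_num)
  refine ⟨K / Real.log 2, by positivity, fun t S ht hS => ?_⟩
  have e3 : ((3 : ℝ) : ℂ) = 3 := by norm_num
  have hne : X (3 + t * I) ≠ 0 := by
    have := (g.sy.pos_right (t := t) (u := 3) (by norm_num)).1
    rwa [e3] at this
  have hup : ∀ u ∈ sphere (3 + t * I : ℂ) 12, ‖X u‖ ≤ Real.exp (K * Real.log (3 + t)) * ‖X (3 + t * I)‖ := by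
    intro u hu
    rw [mem_sphere_iff_norm] at hu
    have h1 := hbox t u 3 ht ?_ ?_ (by norm_num) (by norm_num)
    · rwa [e3] at h1
    · have h2 := (Complex.abs_re_le_norm (u - (3 + t * I))).trans hu.le
      have e : (u - (3 + t * I)).re = u.re - 3 := by simp
      rw [e] at h2
      obtain ⟨h3, h4⟩ := abs_le.1 h2
      rw [abs_le]
      constructor <;> linarith
    · have h2 := (Complex.abs_im_le_norm (u - (3 + t * I))).trans hu.le
      have e : (u - (3 + t * I)).im = u.im - t := by simp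
      rw [e] at h2
      linarith
  have hjc := Pool.Agent.W186.LH.jc g.sy.diff (c := 3 + t * I) (r := 6) (R := 12)
    (M := Real.exp (K * Real.log (3 + t)) * ‖X (3 + t * I)‖) (by norm_num) (by norm_num) hup hne S (by
      intro z hz
      obtain ⟨h1, h2⟩ := hS z hz
      rw [mem_closedBall, dist_eq_norm]
      refine (Complex.norm_le_abs_re_add_abs_im _).trans ?_
      have e1 : (z - (3 + t * I)).re = z.re - 3 := by simp
      have e2 : (z - (3 + t * I)).im = z.im - t := by simp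
      rw [e1, e2]
      obtain ⟨h3, h4⟩ := abs_le.1 h1
      have h5 : |z.re - 3| ≤ 7 / 2 := by rw [abs_le]; constructor <;> linarith
      linarith)
  have e : (12 / 6 : ℝ) = 2 := by norm_num
  rw [e] at hjc
  obtain ⟨n, hn⟩ : ∃ n : ℕ, n = ∑ z ∈ S, analyticOrderNatAt X z := ⟨_, rfl⟩
  rw [← hn] at hjc
  have hnr : ∑ z ∈ S, (analyticOrderNatAt X z : ℝ) = n := by
    rw [hn]
    push_cast
    rfl
  rw [hnr]
  have h1 : (2 : ℝ) ^ n ≤ Real.exp (K * Real.log (3 + t)) := le_of_mul_le_mul_right hjc (norm_pos_iff.2 hne)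
  have h2 : (n : ℝ) * Real.log 2 ≤ K * Real.log (3 + t) := by
    have h3 := Real.log_le_log (by positivity) h1
    rw [Real.log_pow, Real.log_exp] at h3
    exact h3
  rw [div_mul_eq_mul_div, le_div_iff₀ hl2]
  exact h2

/-- **Zeros at bad heights.** -/
theorem x_bad (g : LX κ H X Z) (hR : ∀ b, X b = 0 → b.re = 0) {η : ℝ} (hη0 : 0 < η) (hη1 : η ≤ 1) :
    ∃ c C a0 T0 : ℝ, 0 < c ∧ 0 < C ∧ 1 ≤ a0 ∧ 2 ≤ T0 ∧ ∀ (T r a : ℝ), T0 ≤ T → 0 < r → r ≤ 1 / 100 → κ * r ≤ 1 / 100 →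
      κ * r * Real.log T = a → a0 ≤ a →
      ∀ S : Finset ℂ, (∀ z ∈ S, X z = 0 ∧ T < z.im ∧ z.im ≤ 2 * T ∧ ¬ Gd X a η r z.im) →
      ∑ z ∈ S, (analyticOrderNatAt X z : ℝ) ≤ C * T * Real.log T * Real.exp (-(c * a)) := by
  classical
  have hκ := g.cf.κ_pos
  obtain ⟨s1, hs1d⟩ : ∃ s1 : ℝ, s1 = min (1 / 100) (1 / (100 * κ)) := ⟨_, rfl⟩
  have hs10 : 0 < s1 := by rw [hs1d]; positivity
  have hs11 : s1 ≤ 1 / 100 := by rw [hs1d]; exact min_le_left _ _
  have hs12 : κ * s1 ≤ 1 / 100 := by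
    have : s1 ≤ 1 / (100 * κ) := by rw [hs1d]; exact min_le_right _ _
    calc κ * s1 ≤ κ * (1 / (100 * κ)) := by gcongr
      _ = 1 / 100 := by field_simp
  obtain ⟨c1, C1, a1, T1, hc1, hC1, ha1, hT1, hgood⟩ := g.good η hη0
  obtain ⟨K, hK, hwin⟩ := x_win g
  have hq1 : Real.exp (-c1) < 1 := Real.exp_lt_one_iff.2 (by linarith)
  have hq2 : 0 < 1 - Real.exp (-c1) := by linarith
  obtain ⟨C, hCd⟩ : ∃ C : ℝ, C = 300 / s1 * K * C1 + 8000 * κ * C1 * (1 / (1 - Real.exp (-c1))) := ⟨_, rfl⟩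
  have hC : 0 < C := by rw [hCd]; positivity
  refine ⟨c1, C, a1, max T1 3, hc1, hC, ha1, le_max_of_le_left hT1, fun T r a hT hr hr1 hr2 had ha S hS => ?_⟩
  have hTT1 : T1 ≤ T := (le_max_left _ _).trans hT
  have hT3' : 3 ≤ T := (le_max_right _ _).trans hT
  have hT0 : 0 < T := by linarith
  have hl : 0 < Real.log T := Real.log_pos (by linarith)
  have ha1' : 1 ≤ a := ha1.trans ha
  have hrs1 : r ≤ s1 := by
    rw [hs1d, le_min_iff]
    refine ⟨hr1, ?_⟩
    rw [le_div_iff₀ (by positivity)]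
    nlinarith
  obtain ⟨E, hE⟩ : ∃ E : ℝ, E = Real.exp (-(c1 * a)) := ⟨_, rfl⟩
  have hE0 : 0 < E := by rw [hE]; exact Real.exp_pos _
  rw [← hE]
  obtain ⟨w, hw⟩ : ∃ w : ℂ → ℝ, w = fun z => (analyticOrderNatAt X z : ℝ) := ⟨_, rfl⟩
  have hw0 : ∀ z, 0 ≤ w z := fun z => by rw [hw]; exact Nat.cast_nonneg _
  have hwe : ∀ S' : Finset ℂ, ∑ z ∈ S', (analyticOrderNatAt X z : ℝ) = ∑ z ∈ S', w z := fun S' => by rw [hw]
  rw [hwe]
  obtain ⟨J, hJ1, hJ2⟩ := exists_J hr hrs1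
  have hdich : ∀ z ∈ S, ¬ Gd X (2 ^ J * a) η (2 ^ J * r) z.im ∨ False ∨
      ∃ i < J, (¬ Gd X (2 ^ i * a) η (2 ^ i * r) z.im ∧ Gd X (2 ^ (i + 1) * a) η (2 ^ (i + 1) * r) z.im) := by
    intro z hz
    obtain ⟨g0, g1, g2, g3⟩ := hS z hz
    by_cases hgJ : Gd X (2 ^ J * a) η (2 ^ J * r) z.im
    · right
      right
      obtain ⟨P, hP⟩ : ∃ P : ℕ → Prop, P = fun i => ¬ Gd X (2 ^ i * a) η (2 ^ i * r) z.im := ⟨_, rfl⟩
      have hP0 : P 0 := by
        rw [hP]
        simpa using g3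
      have hPi : P (Nat.findGreatest P J) := Nat.findGreatest_spec (Nat.zero_le J) hP0
      have hPg : ∀ k, Nat.findGreatest P J < k → k ≤ J → ¬ P k := fun k h1 h2 => Nat.findGreatest_is_greatest h1 h2
      have hlt : Nat.findGreatest P J < J := by
        refine lt_of_le_of_ne (Nat.findGreatest_le J) fun he => ?_
        rw [he, hP] at hPi
        exact hPi hgJ
      refine ⟨Nat.findGreatest P J, hlt, ?_, ?_⟩
      · rw [hP] at hPi ⊢
        exact hPi
      · have h3 := hPg (Nat.findGreatest P J + 1) (Nat.lt_succ_self _) hlt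
        rw [hP] at h3
        rw [hP]
        exact not_not.1 h3
    · left
      exact hgJ
  have h1 := split3 w hw0 S _ _ _ J hdich
  refine h1.trans ?_
  have hvol : ∀ i : ℕ, i ≤ J → volume {t0 : ℝ | T / 2 ≤ t0 ∧ t0 ≤ 3 * T ∧
      ¬ NN (2 ^ i * a) η (fun z => X (I * t0 + ((2 ^ i * r : ℝ) : ℂ) * z))} ≤
      ENNReal.ofReal (C1 * T * Real.exp (-(c1 * (2 ^ i * a)))) := by
    intro i hi
    have h2i : (2 : ℝ) ^ i ≤ 2 ^ J := pow_le_pow_right₀ (by norm_num) hi
    have h2i1 : (1 : ℝ) ≤ 2 ^ i := one_le_pow₀ (by norm_num)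
    have h3 : 2 ^ i * r ≤ s1 := (mul_le_mul_of_nonneg_right h2i hr.le).trans hJ2
    refine hgood T (2 ^ i * a) (2 ^ i * r) hTT1 ?_ (by positivity) (h3.trans hs11) ?_ ?_
    · exact ha.trans (le_mul_of_one_le_left (by linarith) h2i1)
    · exact (mul_le_mul_of_nonneg_left h3 hκ.le).trans hs12
    · rw [← had]
      ring
  have ha0 : 0 < a := by linarith
  have hsub : ∀ i : ℕ, i ≤ J → ∀ z ∈ S, ¬ Gd X (2 ^ i * a) η (2 ^ i * r) z.im →
      Icc (z.im - 2 ^ i * r / 100) (z.im + 2 ^ i * r / 100) ⊆ {t0 : ℝ | T / 2 ≤ t0 ∧ t0 ≤ 3 * T ∧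
      ¬ NN (2 ^ i * a) η (fun z => X (I * t0 + ((2 ^ i * r : ℝ) : ℂ) * z))} := by
    intro i hi z hz hbad t ht
    have h2i : (2 : ℝ) ^ i ≤ 2 ^ J := pow_le_pow_right₀ (by norm_num) hi
    have h3 : 2 ^ i * r ≤ s1 := (mul_le_mul_of_nonneg_right h2i hr.le).trans hJ2
    obtain ⟨-, g1, g2, -⟩ := hS z hz
    obtain ⟨g3, g4⟩ := ht
    refine ⟨by linarith, by linarith, fun hN => hbad ⟨t, ?_, hN⟩⟩
    rw [abs_le]
    constructor <;> linarith
  have hwinT : ∀ (z : ℂ) (S' : Finset ℂ), T < z.im → z.im ≤ 2 * T → (∀ z' ∈ S', X z' = 0 ∧ |z'.im - z.im| ≤ 1 / 2) →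
      ∑ z' ∈ S', w z' ≤ 3 * K * Real.log T := by
    intro z S' g1 g2 hS'
    rw [← hwe]
    refine (hwin z.im S' (by linarith) (fun z' hz' => ⟨?_, (hS' z' hz').2⟩)).trans ?_
    · rw [hR z' (hS' z' hz').1, abs_zero]
      norm_num
    · have h3 : Real.log (3 + z.im) ≤ 3 * Real.log T := by
        have e : 3 * Real.log T = Real.log (T ^ 3) := by rw [Real.log_pow]; norm_num
        rw [e]
        refine Real.log_le_log (by linarith) ?_
        nlinarith [mul_pos (by linarith : 0 < T) (by linarith : 0 < T)]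
      nlinarith
  -- first part
  have p2 : ∑ z ∈ S.filter (fun z => ¬ Gd X (2 ^ J * a) η (2 ^ J * r) z.im), w z ≤
      300 / s1 * K * C1 * T * Real.log T * E := by
    have h2J : 0 < (2 : ℝ) ^ J * r := by positivity
    have h2 := cover w hw0 (fun z => z.im) (2 ^ J * r / 100) (3 * K * Real.log T) (by positivity) (by positivity)
      (S.filter (fun z => ¬ Gd X (2 ^ J * a) η (2 ^ J * r) z.im)) _
      (C1 * T * Real.exp (-(c1 * (2 ^ J * a)))) (by positivity)
      (fun z hz => hsub J le_rfl z (Finset.mem_filter.1 hz).1 (Finset.mem_filter.1 hz).2) (hvol J le_rfl) (by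
        intro z hz
        obtain ⟨-, g1, g2, -⟩ := hS z (Finset.mem_filter.1 hz).1
        refine hwinT z _ g1 g2 fun z' hz' => ?_
        rw [Finset.mem_filter, Finset.mem_filter] at hz'
        refine ⟨(hS z' hz'.1.1).1, hz'.2.trans ?_⟩
        linarith)
    refine h2.trans ?_
    have h3 : Real.exp (-(c1 * (2 ^ J * a))) ≤ E := by
      rw [hE]
      apply Real.exp_le_exp.2
      have h2i1 : (1 : ℝ) ≤ 2 ^ J := one_le_pow₀ (by norm_num)
      have : a ≤ 2 ^ J * a := by nlinarith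
      nlinarith
    rw [div_le_iff₀ (by positivity)]
    calc 3 * K * Real.log T * (C1 * T * Real.exp (-(c1 * (2 ^ J * a)))) ≤ 3 * K * Real.log T * (C1 * T * E) := by gcongr
      _ = 300 / s1 * K * C1 * T * Real.log T * E * (2 * (s1 / 2 / 100)) := by field_simp; ring
      _ ≤ _ := by gcongr
  -- second part
  have p3 : ∀ i ∈ Finset.range J, ∑ z ∈ S.filter (fun z => ¬ Gd X (2 ^ i * a) η (2 ^ i * r) z.im ∧
        Gd X (2 ^ (i + 1) * a) η (2 ^ (i + 1) * r) z.im), w z ≤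
      8000 * κ * C1 * T * Real.log T * Real.exp (-(c1 * (2 ^ i * a))) := by
    intro i hi
    rw [Finset.mem_range] at hi
    obtain ⟨Si, hSi⟩ : ∃ Si : Finset ℂ, Si = S.filter (fun z => ¬ Gd X (2 ^ i * a) η (2 ^ i * r) z.im ∧
        Gd X (2 ^ (i + 1) * a) η (2 ^ (i + 1) * r) z.im) := ⟨_, rfl⟩
    rw [← hSi]
    have hmem : ∀ z ∈ Si, z ∈ S ∧ ¬ Gd X (2 ^ i * a) η (2 ^ i * r) z.im ∧
        Gd X (2 ^ (i + 1) * a) η (2 ^ (i + 1) * r) z.im := by
      intro z hz
      rw [hSi, Finset.mem_filter] at hz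
      exact hz
    have h2i0 : (0 : ℝ) < 2 ^ i := by positivity
    have h2i1 : (1 : ℝ) ≤ 2 ^ i := one_le_pow₀ (by norm_num)
    have hpow : (2 : ℝ) ^ (i + 1) = 2 * 2 ^ i := by rw [pow_succ]; ring
    have h2 := cover w hw0 (fun z => z.im) (2 ^ i * r / 100) (80 * (2 ^ (i + 1) * a)) (by positivity) (by positivity)
      Si _ (C1 * T * Real.exp (-(c1 * (2 ^ i * a)))) (by positivity)
      (fun z hz => hsub i hi.le z (hmem z hz).1 (hmem z hz).2.1) (hvol i hi.le) (by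
        intro z hz
        obtain ⟨k1, -, k2⟩ := hmem z hz
        obtain ⟨t', ht', hN⟩ := k2
        have h4 := x_count (X := X) g.sy.diff (a := 2 ^ (i + 1) * a) (η := η) (r := 2 ^ (i + 1) * r) (t0 := t')
          (by rw [hpow]; nlinarith) hη1 (by positivity) hN (Si.filter fun z' => |z'.im - z.im| ≤ 2 * (2 ^ i * r / 100)) (by
            intro z' hz'
            rw [Finset.mem_filter] at hz'
            obtain ⟨m1, -⟩ := hmem z' hz'.1
            refine (Complex.norm_le_abs_re_add_abs_im _).trans ?_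
            have e1 : (z' - I * t').re = z'.re := by simp
            have e2 : (z' - I * t').im = (z'.im - z.im) + (z.im - t') := by simp
            rw [e1, e2, hR z' (hS z' m1).1, abs_zero]
            have h6 := abs_add_le (z'.im - z.im) (z.im - t')
            have h7 := hz'.2
            rw [hpow] at ht' ⊢
            have h8 : 0 < 2 ^ i * r := by positivity
            linarith)
        rw [hw]
        exact h4)
    refine h2.trans ?_
    rw [div_le_iff₀ (by positivity), hpow, ← had]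
    apply le_of_eq
    ring
  have p3' : ∑ i ∈ Finset.range J, ∑ z ∈ S.filter (fun z => ¬ Gd X (2 ^ i * a) η (2 ^ i * r) z.im ∧
        Gd X (2 ^ (i + 1) * a) η (2 ^ (i + 1) * r) z.im), w z ≤
      8000 * κ * C1 * (1 / (1 - Real.exp (-c1))) * T * Real.log T * E := by
    refine (Finset.sum_le_sum p3).trans ?_
    rw [← Finset.mul_sum]
    have h2 := geo hc1 ha1' J
    rw [← hE] at h2
    calc 8000 * κ * C1 * T * Real.log T * ∑ i ∈ Finset.range J, Real.exp (-(c1 * (2 ^ i * a)))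
        ≤ 8000 * κ * C1 * T * Real.log T * (E * (1 / (1 - Real.exp (-c1)))) := by
          apply mul_le_mul_of_nonneg_left h2
          positivity
      _ = _ := by ring
  have p4 : ∑ s ∈ S.filter (fun _ => False), w s = 0 := by simp
  rw [hCd]
  have e : (300 / s1 * K * C1 + 8000 * κ * C1 * (1 / (1 - Real.exp (-c1)))) * T * Real.log T * E =
      300 / s1 * K * C1 * T * Real.log T * E +
        8000 * κ * C1 * (1 / (1 - Real.exp (-c1))) * T * Real.log T * E := by ring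
  rw [e]
  linarith

end Pool.Agent.Q278.TR
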