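import Pool.Agent.Q278.TR.A

set_option autoImplicit false

/-!
# Near the line, away from the zeros
-/

namespace Pool.Agent.Q278.TR

open Complex Set Metric Filter Topology Polynomial
open Pool.Agent.Q246.SA (Sy)
open scoped ComplexConjugate

variable {X : ℂ → ℂ}

theorem term_le {s r x y : ℝ} {ρ : ℂ} (hx : 0 < x) (hs0 : 0 ≤ s) (hsr : s ≤ r) (hr : 0 < r) (h0 : ρ.re = 0)
    (h1 : x ≤ |ρ.im - y|) :
    ‖1 / ((s : ℂ) + y * I - ρ) - 1 / ((r : ℂ) + y * I - ρ)‖ ≤ (1 + r / x) * (1 / ((r : ℂ) + y * I - ρ)).re := by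
  obtain ⟨p, hp⟩ : ∃ p : ℂ, p = (s : ℂ) + y * I - ρ := ⟨_, rfl⟩
  obtain ⟨q, hq⟩ : ∃ q : ℂ, q = (r : ℂ) + y * I - ρ := ⟨_, rfl⟩
  have hpi : p.im = y - ρ.im := by rw [hp]; simp
  have hqr : q.re = r := by rw [hq]; simp [h0]
  have hpx : x ≤ ‖p‖ := by
    refine le_trans ?_ (Complex.abs_im_le_norm p)
    rw [hpi, abs_sub_comm]
    exact h1
  have hp0 : 0 < ‖p‖ := by linarith
  have hq0 : 0 < ‖q‖ := by
    have := Complex.re_le_norm q
    rw [hqr] at this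
    linarith
  have hqp : q - p = ((r - s : ℝ) : ℂ) := by rw [hp, hq]; push_cast; ring
  have hqn : ‖q‖ ≤ (1 + r / x) * ‖p‖ := by
    have h2 : ‖q‖ ≤ ‖p‖ + (r - s) := by
      have h3 := norm_add_le p (q - p)
      rw [add_sub_cancel, hqp, Complex.norm_real, Real.norm_of_nonneg (by linarith)] at h3
      exact h3
    have h4 : r ≤ r / x * ‖p‖ := by
      rw [div_mul_eq_mul_div, le_div_iff₀ hx]
      exact mul_le_mul_of_nonneg_left hpx hr.le
    rw [add_mul, one_mul]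
    linarith
  rw [← hp, ← hq]
  have e1 : (1 / p - 1 / q : ℂ) = (q - p) / (p * q) := by
    have a1 : p ≠ 0 := norm_pos_iff.1 hp0
    have a2 : q ≠ 0 := norm_pos_iff.1 hq0
    field_simp
  have e2 : (1 / q : ℂ).re = r / ‖q‖ ^ 2 := by
    rw [one_div, Complex.inv_re, hqr, Complex.normSq_eq_norm_sq]
  rw [e1, e2, hqp, norm_div, norm_mul, Complex.norm_real, Real.norm_of_nonneg (by linarith), div_le_iff₀ (by positivity)]
  have e3 : (1 + r / x) * (r / ‖q‖ ^ 2) * (‖p‖ * ‖q‖) = r * ((1 + r / x) * ‖p‖ / ‖q‖) := by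
    field_simp
  rw [e3]
  have h5 : 1 ≤ (1 + r / x) * ‖p‖ / ‖q‖ := by rwa [le_div_iff₀ hq0, one_mul]
  nlinarith

theorem sum_le {s r x y : ℝ} (hx : 0 < x) (hs0 : 0 ≤ s) (hsr : s ≤ r) (hr : 0 < r) (M : Multiset ℂ)
    (h : ∀ ρ ∈ M, ρ.re = 0 ∧ x ≤ |ρ.im - y|) :
    ‖(M.map fun ρ => 1 / ((s : ℂ) + y * I - ρ)).sum - (M.map fun ρ => 1 / ((r : ℂ) + y * I - ρ)).sum‖ ≤
      (1 + r / x) * ((M.map fun ρ => 1 / ((r : ℂ) + y * I - ρ)).sum).re := by
  induction M using Multiset.induction with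
  | empty => simp
  | cons ρ M ih =>
    have h1 := ih fun ρ' h' => h ρ' (Multiset.mem_cons_of_mem h')
    have h2 := term_le hx hs0 hsr hr (h ρ (Multiset.mem_cons_self _ _)).1 (h ρ (Multiset.mem_cons_self _ _)).2
    rw [Multiset.map_cons, Multiset.map_cons, Multiset.sum_cons, Multiset.sum_cons, Complex.add_re, mul_add]
    rw [add_sub_add_comm]
    exact (norm_add_le _ _).trans (add_le_add h2 h1)

theorem poly_ld {s r x y : ℝ} (hx : 0 < x) (hs0 : 0 ≤ s) (hsr : s ≤ r) (hr : 0 < r) (p : ℂ[X])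
    (h : ∀ ρ, p.IsRoot ρ → ρ.re = 0 ∧ x ≤ |ρ.im - y|) (hps : p.eval ((s : ℂ) + y * I) ≠ 0)
    (hpr : p.eval ((r : ℂ) + y * I) ≠ 0) :
    ‖logDeriv (fun z => p.eval z) ((s : ℂ) + y * I)‖ ≤
      (2 + r / x) * ‖logDeriv (fun z => p.eval z) ((r : ℂ) + y * I)‖ := by
  have hp0 : p ≠ 0 := fun h0 => hps (by rw [h0, eval_zero])
  have e : ∀ z : ℂ, p.eval z ≠ 0 → logDeriv (fun z => p.eval z) z = (p.roots.map fun ρ => 1 / (z - ρ)).sum := by
    intro z hz
    rw [logDeriv_apply, Polynomial.deriv, (IsAlgClosed.splits p).eval_derivative_div_eval_of_ne_zero hz]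
  rw [e _ hps, e _ hpr]
  have h1 := sum_le (y := y) hx hs0 hsr hr p.roots (fun ρ hρ => h ρ (Polynomial.isRoot_of_mem_roots hρ))
  obtain ⟨A, hA⟩ : ∃ A : ℂ, A = (p.roots.map fun ρ => 1 / ((s : ℂ) + y * I - ρ)).sum := ⟨_, rfl⟩
  obtain ⟨B, hB⟩ : ∃ B : ℂ, B = (p.roots.map fun ρ => 1 / ((r : ℂ) + y * I - ρ)).sum := ⟨_, rfl⟩
  rw [← hA, ← hB] at h1
  rw [← hA, ← hB]
  have h2 : ‖A‖ ≤ ‖A - B‖ + ‖B‖ := by
    have := norm_add_le (A - B) B
    rwa [sub_add_cancel] at this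
  have h3 := Complex.re_le_norm B
  have h4 : (1 + r / x) * B.re ≤ (1 + r / x) * ‖B‖ := mul_le_mul_of_nonneg_left h3 (by positivity)
  nlinarith

/-- **The logarithmic derivative near the line.** -/
theorem ld_near (h : Sy X) (hR : ∀ b, X b = 0 → b.re = 0) {s r x y : ℝ} (hx : 0 < x) (hs0 : 0 ≤ s) (hsr : s ≤ r)
    (hr : 0 < r) (hz : ∀ b, X b = 0 → x ≤ |b.im - y|) :
    X ((s : ℂ) + y * I) ≠ 0 ∧
    ‖logDeriv X ((s : ℂ) + y * I)‖ ≤ (2 + 2 * r / x) * ‖logDeriv X ((r : ℂ) + y * I)‖ := by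
  obtain ⟨p, hp1, hp2, -⟩ := h.app
  have hne : ∀ σ : ℝ, X ((σ : ℂ) + y * I) ≠ 0 := by
    intro σ h0
    have := hz _ h0
    have e : ((σ : ℂ) + y * I).im = y := by simp
    rw [e, sub_self, abs_zero] at this
    linarith
  refine ⟨hne s, ?_⟩
  -- the segment without zeros
  obtain ⟨Kc, hKc⟩ : ∃ Kc : Set ℂ, Kc = (fun v : ℝ => (v : ℂ) * I) '' Icc (y - x / 2) (y + x / 2) := ⟨_, rfl⟩
  have hKcomp : IsCompact Kc := by
    rw [hKc]
    exact isCompact_Icc.image (by fun_prop)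
  have hKne : ∀ z ∈ Kc, X z ≠ 0 := by
    intro z hzK h0
    rw [hKc] at hzK
    obtain ⟨v, ⟨hv1, hv2⟩, rfl⟩ := hzK
    have h1 := hz _ h0
    have e : ((v : ℂ) * I).im = v := by simp
    simp only [e] at h1
    have : |v - y| ≤ x / 2 := by rw [abs_le]; constructor <;> linarith
    linarith
  have hunif : TendstoUniformlyOn (fun (N : ℕ) (z : ℂ) => (p N).eval z) X atTop Kc :=
    (tendstoLocallyUniformlyOn_iff_tendstoUniformlyOn_of_compact hKcomp).1 hp2.tendstoLocallyUniformlyOn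
  have hKn0 : Kc.Nonempty := by
    rw [hKc]
    exact ⟨_, y, ⟨by linarith, by linarith⟩, rfl⟩
  obtain ⟨z0, hz0, hmin⟩ := hKcomp.exists_isMinOn hKn0 (f := fun z => ‖X z‖) h.diff.continuous.norm.continuousOn
  have hm0 : 0 < ‖X z0‖ := norm_pos_iff.2 (hKne z0 hz0)
  rw [Metric.tendstoUniformlyOn_iff] at hunif
  have hev1 := hunif _ hm0
  have hev2 : ∀ᶠ N in atTop, ∀ ρ : ℂ, (p N).IsRoot ρ → ρ.re = 0 ∧ x / 2 ≤ |ρ.im - y| := by
    filter_upwards [hev1] with N hN ρ hρ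
    have h0 : ρ.re = 0 := by
      rcases hp1 N ρ hρ with h1 | h1
      · exact hR ρ h1
      · exact h1
    refine ⟨h0, ?_⟩
    by_contra hcon
    push Not at hcon
    obtain ⟨g1, g2⟩ := abs_lt.1 hcon
    have hmem : ρ ∈ Kc := by
      rw [hKc]
      refine ⟨ρ.im, ⟨by linarith, by linarith⟩, ?_⟩
      apply Complex.ext <;> simp [h0]
    have h3 := hN ρ hmem
    rw [hρ.eq_zero, dist_zero_right] at h3
    have h4 : ‖X z0‖ ≤ ‖X ρ‖ := hmin hmem
    linarith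
  have htd : ∀ σ : ℝ, Tendsto (fun N => logDeriv (fun z => (p N).eval z) ((σ : ℂ) + y * I)) atTop
      (𝓝 (logDeriv X ((σ : ℂ) + y * I))) := by
    intro σ
    exact logDeriv_tendsto isOpen_univ (mem_univ _) (tendstoLocallyUniformlyOn_univ.2 hp2)
      (Eventually.of_forall fun N => (p N).differentiable.differentiableOn) (hne σ)
  have hpt : ∀ σ : ℝ, Tendsto (fun N => (p N).eval ((σ : ℂ) + y * I)) atTop (𝓝 (X ((σ : ℂ) + y * I))) :=
    fun σ => (tendstoLocallyUniformlyOn_univ.2 hp2).tendsto_at (mem_univ _)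
  have hev3 := (hpt s).eventually_ne (hne s)
  have hev4 := (hpt r).eventually_ne (hne r)
  have hfin : ∀ᶠ N in atTop, ‖logDeriv (fun z => (p N).eval z) ((s : ℂ) + y * I)‖ ≤
      (2 + 2 * r / x) * ‖logDeriv (fun z => (p N).eval z) ((r : ℂ) + y * I)‖ := by
    filter_upwards [hev2, hev3, hev4] with N h2 h3 h4
    have h5 := poly_ld (x := x / 2) (by linarith) hs0 hsr hr (p N) h2 h3 h4
    have e : r / (x / 2) = 2 * r / x := by field_simp
    rwa [e] at h5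
  exact le_of_tendsto_of_tendsto (htd s).norm ((htd r).norm.const_mul _) hfin

/-- **The value at distance `s` from the line has the sign of the value on the line.** -/
theorem re_ne (h : Sy X) (hR : ∀ b, X b = 0 → b.re = 0) {s r x y B : ℝ} (hx : 0 < x) (hs0 : 0 ≤ s) (hsr : s ≤ r)
    (hr : 0 < r) (hz : ∀ b, X b = 0 → x ≤ |b.im - y|) (hB : ‖logDeriv X ((r : ℂ) + y * I)‖ ≤ B)
    (hs : s * ((2 + 2 * r / x) * B) ≤ 1 / 4) :
    X ((y : ℂ) * I + s) + X ((y : ℂ) * I - s) ≠ 0 := by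
  have hB0 : 0 ≤ B := (norm_nonneg _).trans hB
  obtain ⟨B', hB'⟩ : ∃ B' : ℝ, B' = (2 + 2 * r / x) * B := ⟨_, rfl⟩
  have hB'0 : 0 ≤ B' := by rw [hB']; positivity
  rw [← hB'] at hs
  obtain ⟨f, hf⟩ : ∃ f : ℝ → ℂ, f = fun σ : ℝ => X ((σ : ℂ) + y * I) := ⟨_, rfl⟩
  have hder : ∀ σ : ℝ, HasDerivAt f (deriv X ((σ : ℂ) + y * I)) σ := by
    intro σ
    have h1 : HasDerivAt (fun σ : ℝ => (σ : ℂ) + y * I) 1 σ := by
      have := (Complex.ofRealCLM.hasDerivAt (x := σ)).add_const ((y : ℂ) * I)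
      simpa using this
    have h2 := (h.diff ((σ : ℂ) + y * I)).hasDerivAt.comp σ h1
    rw [mul_one] at h2
    rw [hf]
    exact h2
  have hbd : ∀ σ : ℝ, 0 ≤ σ → σ ≤ s → ‖deriv X ((σ : ℂ) + y * I)‖ ≤ B' * ‖f σ‖ := by
    intro σ h1 h2
    obtain ⟨h3, h4⟩ := ld_near h hR hx h1 (h2.trans hsr) hr hz
    have h5 : ‖logDeriv X ((σ : ℂ) + y * I)‖ ≤ B' := by
      refine h4.trans ?_
      rw [hB']
      gcongr
    rw [logDeriv_apply, norm_div, div_le_iff₀ (norm_pos_iff.2 h3)] at h5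
    rw [hf]
    exact h5
  -- growth
  have hgr : ∀ σ ∈ Icc (0 : ℝ) s, ‖f σ‖ ≤ ‖f 0‖ * Real.exp (B' * σ) := by
    have h1 := norm_le_gronwallBound_of_norm_deriv_right_le (f := f) (f' := fun σ => deriv X ((σ : ℂ) + y * I))
      (δ := ‖f 0‖) (K := B') (ε := 0) (a := 0) (b := s) (fun σ _ => (hder σ).continuousAt.continuousWithinAt)
      (fun σ _ => (hder σ).hasDerivWithinAt) le_rfl (fun σ hσ => by
        rw [add_zero]
        exact hbd σ hσ.1 hσ.2.le)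
    intro σ hσ
    have h2 := h1 σ hσ
    rw [gronwallBound_ε0, sub_zero] at h2
    exact h2
  have hexp : Real.exp (1 / 4 : ℝ) ≤ 2 := by
    have h1 : Real.exp (1 / 4 : ℝ) ≤ Real.exp (Real.log 2) := by
      apply Real.exp_le_exp.2
      have := Real.log_two_gt_d9
      linarith
    rwa [Real.exp_log (by norm_num)] at h1
  have hup : ∀ σ ∈ Icc (0 : ℝ) s, ‖f σ‖ ≤ 2 * ‖f 0‖ := by
    intro σ hσ
    refine (hgr σ hσ).trans ?_
    rw [mul_comm]
    gcongr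
    refine le_trans (Real.exp_le_exp.2 ?_) hexp
    calc B' * σ ≤ B' * s := by gcongr; exact hσ.2
      _ = s * B' := by ring
      _ ≤ 1 / 4 := hs
  have hdiff : ‖f s - f 0‖ ≤ 1 / 2 * ‖f 0‖ := by
    have h1 := (convex_Icc (0 : ℝ) s).norm_image_sub_le_of_norm_hasDerivWithin_le (f := f)
      (f' := fun σ => deriv X ((σ : ℂ) + y * I)) (C := B' * (2 * ‖f 0‖)) (x := 0) (y := s)
      (fun σ _ => (hder σ).hasDerivWithinAt) (fun σ hσ => by
        refine (hbd σ hσ.1 hσ.2).trans ?_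
        gcongr
        exact hup σ hσ) ⟨le_rfl, hs0⟩ ⟨hs0, le_rfl⟩
    refine h1.trans ?_
    rw [sub_zero, Real.norm_of_nonneg hs0]
    have h2 : 0 ≤ ‖f 0‖ := norm_nonneg _
    nlinarith
  -- reality on the line
  have hf0 : f 0 = X ((y : ℂ) * I) := by rw [hf]; simp
  have hreal : (f 0).im = 0 := by
    have h1 := h.symm ((y : ℂ) * I)
    have e : -(conj ((y : ℂ) * I)) = (y : ℂ) * I := by
      rw [map_mul, Complex.conj_ofReal, Complex.conj_I]
      ring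
    rw [e] at h1
    rw [hf0]
    exact (Complex.conj_eq_iff_im.1 h1.symm)
  have hne0 : 0 < ‖f 0‖ := by
    obtain ⟨h3, -⟩ := ld_near h hR hx le_rfl hr.le hr hz
    rw [norm_pos_iff, hf]
    exact h3
  have hsymm : X ((y : ℂ) * I - s) = conj (X ((y : ℂ) * I + s)) := by
    have h1 := h.symm ((y : ℂ) * I + s)
    have e : -(conj ((y : ℂ) * I + s)) = (y : ℂ) * I - s := by
      rw [map_add, map_mul, Complex.conj_ofReal, Complex.conj_ofReal, Complex.conj_I]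
      ring
    rw [e] at h1
    exact h1
  have hfs : X ((y : ℂ) * I + s) = f s := by rw [hf, add_comm]
  rw [hsymm, hfs]
  intro h0
  have h1 := congrArg Complex.re h0
  rw [Complex.add_re, Complex.conj_re, Complex.zero_re] at h1
  have h2 : (f s).re = 0 := by linarith
  have h3 : |(f 0).re| = ‖f 0‖ := by
    rw [← Complex.re_add_im (f 0), hreal]
    simp
  have h4 := (Complex.abs_re_le_norm (f s - f 0)).trans hdiff
  rw [Complex.sub_re, h2, zero_sub, abs_neg, h3] at h4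
  linarith

end Pool.Agent.Q278.TR
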