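import Pool.Agent.Q278.TR.B
import Pool.Agent.Y758.MM.DISC
import Pool.Agent.Y758.MM.RESL

set_option autoImplicit false

/-!
# The number of zeros does not change
-/

namespace Pool.Agent.Q278.TR

open Complex Set Metric Filter Topology
open Pool.Agent.Q246.SA (Sy)
open scoped ComplexConjugate

variable {X : ℂ → ℂ}

/-- the average -/
noncomputable def Ave (X : ℂ → ℂ) (s : ℝ) (z : ℂ) : ℂ := X (z + s) + X (z - s)

theorem ave_fs (s : ℝ) : Ave X s = Pool.Agent.Q278.ES.Fs X s (-1) := by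
  funext z
  unfold Ave Pool.Agent.Q278.ES.Fs
  ring

theorem ave_diff (h : Differentiable ℂ X) (s : ℝ) : Differentiable ℂ (Ave X s) := by
  have h1 : Differentiable ℂ (fun z : ℂ => X (z + s)) := h.comp (by fun_prop)
  have h2 : Differentiable ℂ (fun z : ℂ => X (z - s)) := h.comp (by fun_prop)
  exact h1.add h2

theorem ave_deriv (h : Differentiable ℂ X) (s : ℝ) (z : ℂ) :
    deriv (Ave X s) z = deriv X (z + s) + deriv X (z - s) := by
  have h1 : HasDerivAt (fun z : ℂ => X (z + s)) (deriv X (z + s)) z := ((h _).hasDerivAt).comp_add_const _ _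
  have h2 : HasDerivAt (fun z : ℂ => X (z - s)) (deriv X (z - s)) z := ((h _).hasDerivAt).comp_sub_const _ _
  exact (h1.add h2).deriv

/-- zeros of the averages are on the line -/
theorem ave_re (h : Sy X) (hR : ∀ b, X b = 0 → b.re = 0) {s : ℝ} (hs : 0 ≤ s) {z : ℂ} (h0 : Ave X s z = 0) :
    z.re = 0 := by
  rcases hs.eq_or_lt with rfl | hs
  · have e : Ave X 0 z = 2 * X z := by
      unfold Ave
      rw [Complex.ofReal_zero, add_zero, sub_zero]
      ring
    rw [e] at h0
    exact hR z ((mul_eq_zero.1 h0).resolve_left two_ne_zero)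
  · by_contra hcon
    rw [ave_fs] at h0
    obtain ⟨b, hb, h2⟩ := Pool.Agent.Q246.SA.FF_bad h hs (ω := -1) (by simp) h0 (Or.inl hcon)
    rw [hR b hb] at h2
    have : 0 < z.re ^ 2 := by positivity
    nlinarith [sq_nonneg s, sq_nonneg (z.im - b.im)]

/-- zeros of the averages are simple -/
theorem ave_simple (h : Sy X) (hR : ∀ b, X b = 0 → b.re = 0) {s : ℝ} (hs : 0 < s) {z : ℂ} (h0 : Ave X s z = 0) :
    deriv (Ave X s) z ≠ 0 := by
  intro hcon
  rw [ave_fs] at h0 hcon
  obtain ⟨b, hb, h2⟩ := Pool.Agent.Q246.SA.FF_bad h hs (ω := -1) (by simp) h0 (Or.inr hcon)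
  rw [hR b hb] at h2
  nlinarith [sq_nonneg z.re, pow_pos hs 2, sq_nonneg (z.im - b.im)]

/-- **The number of zeros in a disc does not change.** -/
theorem count_eq (h : Sy X) (hR : ∀ b, X b = 0 → b.re = 0) {s0 b : ℝ} (hs0 : 0 ≤ s0) (hb : 0 < b)
    (h1 : ∀ s : ℝ, 0 ≤ s → s ≤ s0 → Ave X s 0 ≠ 0) (h2 : ∀ s : ℝ, 0 ≤ s → s ≤ s0 → Ave X s (b * I) ≠ 0) :
    ∑ᶠ z ∈ ball ((b / 2 : ℝ) * I : ℂ) (b / 2), analyticOrderNatAt (Ave X s0) z =
      ∑ᶠ z ∈ ball ((b / 2 : ℝ) * I : ℂ) (b / 2), analyticOrderNatAt (Ave X 0) z := by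
  have hD := Pool.Agent.Y758.MM.MM_DISC Pool.Agent.Y758.MM.MM_RESL
  obtain ⟨c, hc⟩ : ∃ c : ℂ, c = ((b / 2 : ℝ) * I : ℂ) := ⟨_, rfl⟩
  rw [← hc]
  have hρ : 0 < b / 2 := by positivity
  -- no zeros on the circle
  have hsph : ∀ s : ℝ, 0 ≤ s → s ≤ s0 → ∀ z ∈ sphere c (b / 2), Ave X s z ≠ 0 := by
    intro s hs hs' z hz h0
    have hre := ave_re h hR hs h0
    rw [mem_sphere_iff_norm] at hz
    have e : z - c = ((z.im - b / 2 : ℝ) : ℂ) * I := by
      rw [hc]
      apply Complex.ext <;> simp [hre]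
    rw [e, norm_mul, Complex.norm_I, mul_one, Complex.norm_real, Real.norm_eq_abs] at hz
    rcases (abs_eq hρ.le).1 hz with h3 | h3
    · have h4 : z = b * I := by
        apply Complex.ext
        · simp [hre]
        · simp
          linarith
      rw [h4] at h0
      exact h2 s hs hs' h0
    · have h4 : z = 0 := by
        apply Complex.ext
        · simp [hre]
        · simp
          linarith
      rw [h4] at h0
      exact h1 s hs hs' h0
  have hint : ∀ s : ℝ, 0 ≤ s → s ≤ s0 → ((∑ᶠ z ∈ ball c (b / 2), analyticOrderNatAt (Ave X s) z : ℕ) : ℂ) =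
      (2 * Real.pi * Complex.I)⁻¹ * ∮ w in C(c, b / 2), deriv (Ave X s) w / Ave X s w := by
    intro s hs hs'
    have hol : ∀ z, Pool.Agent.Y758.MM.Hol (Ave X s) z := fun z =>
      Filter.Eventually.of_forall fun w => ave_diff h.diff s w
    exact (hD (Ave X s) (Ave X s) c (b / 2) hρ (fun z _ => ⟨hol z, hol z⟩) (hsph s hs hs')).2.2.1
  -- continuity
  obtain ⟨Φ, hΦ⟩ : ∃ Φ : Icc (0 : ℝ) s0 → ℂ, Φ = fun s => ∫ θ in (0 : ℝ)..(2 * Real.pi),
      deriv (circleMap c (b / 2)) θ * (deriv (Ave X s.1) (circleMap c (b / 2) θ) / Ave X s.1 (circleMap c (b / 2) θ)) :=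
    ⟨_, rfl⟩
  have hXd : Continuous (deriv X) := by
    have h3 : AnalyticOnNhd ℂ X univ := fun z _ => h.diff.analyticAt z
    have h4 : Differentiable ℂ (deriv X) := fun z => (h3.deriv z (mem_univ z)).differentiableAt
    exact h4.continuous
  have hcirc : Continuous (circleMap c (b / 2)) := continuous_circleMap _ _
  have hΦc : Continuous Φ := by
    rw [hΦ]
    apply intervalIntegral.continuous_parametric_intervalIntegral_of_continuous'
    have hd : Continuous (deriv (circleMap c (b / 2))) := by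
      have e : deriv (circleMap c (b / 2)) = fun θ => circleMap 0 (b / 2) θ * I := by
        funext θ
        exact deriv_circleMap _ _ _
      rw [e]
      exact (continuous_circleMap _ _).mul continuous_const
    have e1 : (fun p : Icc (0 : ℝ) s0 × ℝ => deriv (Ave X p.1.1) (circleMap c (b / 2) p.2)) = fun p =>
        deriv X (circleMap c (b / 2) p.2 + ((p.1.1 : ℝ) : ℂ)) + deriv X (circleMap c (b / 2) p.2 - ((p.1.1 : ℝ) : ℂ)) := by
      funext p
      exact ave_deriv h.diff _ _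
    have hc1 : Continuous (fun p : Icc (0 : ℝ) s0 × ℝ => deriv (Ave X p.1.1) (circleMap c (b / 2) p.2)) := by
      rw [e1]
      fun_prop
    have hXc := h.diff.continuous
    have hc2 : Continuous (fun p : Icc (0 : ℝ) s0 × ℝ => Ave X p.1.1 (circleMap c (b / 2) p.2)) := by
      unfold Ave
      fun_prop
    refine (hd.comp continuous_snd).mul (hc1.div hc2 ?_)
    rintro ⟨⟨s, hs1, hs2⟩, θ⟩
    exact hsph s hs1 hs2 _ (circleMap_mem_sphere _ hρ.le _)
  obtain ⟨n, hn⟩ : ∃ n : Icc (0 : ℝ) s0 → ℕ, n = fun s =>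
      ∑ᶠ z ∈ ball c (b / 2), analyticOrderNatAt (Ave X s.1) z := ⟨_, rfl⟩
  have hnΦ : ∀ s, (n s : ℝ) = ((2 * Real.pi * Complex.I)⁻¹ * Φ s).re := by
    intro s
    have h3 := hint s.1 s.2.1 s.2.2
    have e : (∮ w in C(c, b / 2), deriv (Ave X s.1) w / Ave X s.1 w) = Φ s := by
      rw [hΦ]
      unfold circleIntegral
      rfl
    rw [e] at h3
    rw [← h3, hn]
    simp
  have hnc : Continuous n := by
    rw [Nat.isClosedEmbedding_coe_real.isInducing.continuous_iff]
    have e : ((↑) : ℕ → ℝ) ∘ n = fun s => ((2 * Real.pi * Complex.I)⁻¹ * Φ s).re := by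
      funext s
      exact hnΦ s
    rw [e]
    exact Complex.continuous_re.comp (continuous_const.mul hΦc)
  have : PreconnectedSpace (Icc (0 : ℝ) s0) := isPreconnected_iff_preconnectedSpace.1 isPreconnected_Icc
  have h3 := PreconnectedSpace.constant this hnc (x := ⟨s0, hs0, le_rfl⟩) (y := ⟨0, le_rfl, hs0⟩)
  rw [hn] at h3
  exact h3

end Pool.Agent.Q278.TR
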