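import Mathlib

set_option autoImplicit false

/-!
# Counting and numbering the points of a discrete multiset of positive reals
-/

namespace Pool.Agent.Q278.TR

open Set

/-- the number of points in `(0, T]` -/
noncomputable def cn (m : ℝ → ℕ) (T : ℝ) : ℕ := ∑ᶠ t ∈ Ioc (0 : ℝ) T, m t

/-- the `n`-th point -/
noncomputable def nt (m : ℝ → ℕ) (n : ℕ) : ℝ := sInf {T : ℝ | 0 < T ∧ n ≤ cn m T}

/-- discrete and infinite -/
structure Dis (m : ℝ → ℕ) : Prop where
  fin : ∀ T : ℝ, {t : ℝ | 0 < t ∧ t ≤ T ∧ m t ≠ 0}.Finite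
  unb : ∀ n : ℕ, ∃ T : ℝ, 0 < T ∧ n ≤ cn m T

variable {m : ℝ → ℕ}

/-- the finite set of points -/
noncomputable def pts (h : Dis m) (T : ℝ) : Finset ℝ := (h.fin T).toFinset

theorem mem_pts (h : Dis m) {T t : ℝ} : t ∈ pts h T ↔ 0 < t ∧ t ≤ T ∧ m t ≠ 0 := by
  unfold pts
  rw [Set.Finite.mem_toFinset]
  rfl

theorem cn_eq (h : Dis m) (T : ℝ) : cn m T = ∑ t ∈ pts h T, m t := by
  unfold cn
  rw [← finsum_mem_inter_support]
  have e : Ioc (0 : ℝ) T ∩ Function.support m = ↑(pts h T) := by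
    ext t
    rw [Finset.mem_coe, mem_pts]
    simp only [mem_inter_iff, mem_Ioc, Function.mem_support, and_assoc]
  rw [e, finsum_mem_coe_finset]

theorem cn_mono (h : Dis m) {T T' : ℝ} (hT : T ≤ T') : cn m T ≤ cn m T' := by
  rw [cn_eq h, cn_eq h]
  apply Finset.sum_le_sum_of_subset
  intro t ht
  rw [mem_pts] at ht ⊢
  exact ⟨ht.1, ht.2.1.trans hT, ht.2.2⟩

/-- no points immediately to the right -/
theorem right_gap (h : Dis m) (T : ℝ) : ∃ ε : ℝ, 0 < ε ∧ cn m (T + ε) = cn m T := by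
  obtain ⟨S, hS⟩ : ∃ S : Finset ℝ, S = (pts h (T + 1)).filter (fun t => T < t) := ⟨_, rfl⟩
  obtain ⟨ε, hε, hε1, hS2⟩ : ∃ ε : ℝ, 0 < ε ∧ ε ≤ 1 ∧ ∀ t ∈ S, T + ε < t := by
    rcases S.eq_empty_or_nonempty with h0 | hne
    · exact ⟨1, one_pos, le_rfl, by rw [h0]; simp⟩
    · have hm := S.min'_mem hne
      have h1 : T < S.min' hne := by
        have h2 : S.min' hne ∈ (pts h (T + 1)).filter (fun t => T < t) := by rw [← hS]; exact hm
        exact (Finset.mem_filter.1 h2).2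
      refine ⟨min 1 ((S.min' hne - T) / 2), by apply lt_min one_pos; linarith, min_le_left _ _, fun t ht => ?_⟩
      have h2 := S.min'_le t ht
      have h3 := min_le_right (1 : ℝ) ((S.min' hne - T) / 2)
      linarith
  refine ⟨ε, hε, ?_⟩
  rw [cn_eq h, cn_eq h]
  congr 1
  ext t
  rw [mem_pts, mem_pts]
  constructor
  · rintro ⟨h1, h2, h3⟩
    refine ⟨h1, ?_, h3⟩
    by_contra hcon
    push Not at hcon
    have : t ∈ S := by
      rw [hS, Finset.mem_filter, mem_pts]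
      exact ⟨⟨h1, by linarith, h3⟩, hcon⟩
    have := hS2 t this
    linarith
  · rintro ⟨h1, h2, h3⟩
    exact ⟨h1, by linarith, h3⟩

/-- no points immediately to the left -/
theorem left_gap (h : Dis m) {T : ℝ} (hT : 0 < T) : ∃ T' : ℝ, 0 < T' ∧ T' < T ∧ cn m T = cn m T' + m T := by
  obtain ⟨S, hS⟩ : ∃ S : Finset ℝ, S = (pts h T).filter (fun t => t < T) := ⟨_, rfl⟩
  obtain ⟨T', hT', hT'T, hS2⟩ : ∃ T' : ℝ, 0 < T' ∧ T' < T ∧ ∀ t ∈ S, t ≤ T' := by
    rcases S.eq_empty_or_nonempty with h0 | hne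
    · exact ⟨T / 2, by linarith, by linarith, by rw [h0]; simp⟩
    · have hm := S.max'_mem hne
      have h2 : S.max' hne ∈ (pts h T).filter (fun t => t < T) := by rw [← hS]; exact hm
      obtain ⟨h3, h4⟩ := Finset.mem_filter.1 h2
      rw [mem_pts] at h3
      exact ⟨S.max' hne, h3.1, h4, fun t ht => S.le_max' t ht⟩
  refine ⟨T', hT', hT'T, ?_⟩
  have e : pts h T' = (pts h T).erase T := by
    ext t
    rw [Finset.mem_erase, mem_pts, mem_pts]
    constructor
    · rintro ⟨h1, h2, h3⟩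
      exact ⟨by linarith [h2, hT'T] |> fun (h : t < T) => h.ne, h1, by linarith, h3⟩
    · rintro ⟨h0, h1, h2, h3⟩
      refine ⟨h1, hS2 t ?_, h3⟩
      rw [hS, Finset.mem_filter, mem_pts]
      exact ⟨⟨h1, h2, h3⟩, lt_of_le_of_ne h2 h0⟩
  rw [cn_eq h, cn_eq h, e]
  by_cases hm : m T = 0
  · rw [hm, add_zero, Finset.erase_eq_of_notMem]
    rw [mem_pts]
    exact fun h4 => h4.2.2 hm
  · have hmem : T ∈ pts h T := by
      rw [mem_pts]
      exact ⟨hT, le_rfl, hm⟩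
    exact (Finset.sum_erase_add _ _ hmem).symm

/-- **The defining property of the numbering.** -/
theorem nt_le_iff (h : Dis m) {n : ℕ} {T : ℝ} (hT : 0 < T) : nt m n ≤ T ↔ n ≤ cn m T := by
  have hbdd : BddBelow {T : ℝ | 0 < T ∧ n ≤ cn m T} := ⟨0, fun T hT => hT.1.le⟩
  constructor
  · intro h1
    obtain ⟨ε, hε, he⟩ := right_gap h T
    rw [← he]
    obtain ⟨T1, hT1, hT2⟩ := exists_lt_of_csInf_lt (h.unb n) (show nt m n < T + ε by linarith)
    exact hT1.2.trans (cn_mono h hT2.le)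
  · intro h1
    exact csInf_le hbdd ⟨hT, h1⟩

theorem nt_pos (h : Dis m) {n : ℕ} (hn : 1 ≤ n) : 0 < nt m n := by
  have h0 : 0 ≤ nt m n := Real.sInf_nonneg fun T hT => hT.1.le
  obtain ⟨ε, hε, he⟩ := right_gap h 0
  rw [zero_add] at he
  by_contra hcon
  push Not at hcon
  have h1 : nt m n ≤ ε := by linarith
  rw [nt_le_iff h hε, he] at h1
  have h2 : cn m 0 = 0 := by
    unfold cn
    rw [Ioc_self]
    simp
  omega

theorem nt_mono (h : Dis m) {n n' : ℕ} (hn : n ≤ n') (hn1 : 1 ≤ n') : nt m n ≤ nt m n' := by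
  rw [nt_le_iff h (nt_pos h hn1)]
  exact hn.trans ((nt_le_iff h (nt_pos h hn1)).1 le_rfl)

theorem le_cn (h : Dis m) {n : ℕ} (hn : 1 ≤ n) : n ≤ cn m (nt m n) := (nt_le_iff h (nt_pos h hn)).1 le_rfl

theorem cn_lt (h : Dis m) {n : ℕ} {T : ℝ} (hT : 0 < T) (h1 : T < nt m n) : cn m T < n := by
  by_contra hcon
  push Not at hcon
  rw [← nt_le_iff h hT] at hcon
  linarith

/-- The fibres of the numbering. -/
theorem fibre (h : Dis m) {t : ℝ} (ht : 0 < t) (N : ℕ) :
    ((Finset.Icc 1 N).filter fun n => nt m n = t).card ≤ m t := by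
  obtain ⟨T', h1, h2, h3⟩ := left_gap h ht
  have hsub : ((Finset.Icc 1 N).filter fun n => nt m n = t) ⊆ Finset.Ioc (cn m T') (cn m t) := by
    intro n hn
    rw [Finset.mem_filter, Finset.mem_Icc] at hn
    obtain ⟨⟨h4, -⟩, h5⟩ := hn
    rw [Finset.mem_Ioc]
    constructor
    · exact cn_lt h h1 (by rw [h5]; exact h2)
    · have := le_cn h h4
      rwa [h5] at this
  refine (Finset.card_le_card hsub).trans ?_
  rw [Nat.card_Ioc, h3]
  omega

/-- **Counting indices by points.** -/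
theorem card_le (h : Dis m) (N : ℕ) (hN : 1 ≤ N) (P : ℝ → Prop) [DecidablePred P] :
    ∃ S : Finset ℝ, (∀ t ∈ S, 0 < t ∧ t ≤ nt m N ∧ m t ≠ 0 ∧ P t) ∧
      ((Finset.Icc 1 N).filter fun n => P (nt m n)).card ≤ ∑ t ∈ S, m t := by
  refine ⟨(pts h (nt m N)).filter P, fun t ht => ?_, ?_⟩
  · rw [Finset.mem_filter, mem_pts] at ht
    exact ⟨ht.1.1, ht.1.2.1, ht.1.2.2, ht.2⟩
  · rw [Finset.card_eq_sum_card_fiberwise (f := nt m) (t := (pts h (nt m N)).filter P)]
    · apply Finset.sum_le_sum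
      intro t ht
      rw [Finset.mem_filter, mem_pts] at ht
      refine le_trans (Finset.card_le_card ?_) (fibre h ht.1.1 N)
      intro n hn
      rw [Finset.mem_filter, Finset.mem_filter] at hn
      rw [Finset.mem_filter]
      exact ⟨hn.1.1, hn.2⟩
    · intro n hn
      rw [Finset.mem_coe, Finset.mem_filter, Finset.mem_Icc] at hn
      obtain ⟨⟨h1, h2⟩, h3⟩ := hn
      rw [Finset.mem_coe, Finset.mem_filter, mem_pts]
      refine ⟨⟨nt_pos h h1, nt_mono h h2 hN, ?_⟩, h3⟩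
      intro h0
      have h4 := fibre h (nt_pos h h1) N
      rw [h0, Nat.le_zero, Finset.card_eq_zero] at h4
      have h5 : n ∈ (Finset.Icc 1 N).filter fun n' => nt m n' = nt m n := by
        rw [Finset.mem_filter, Finset.mem_Icc]
        exact ⟨⟨h1, h2⟩, rfl⟩
      rw [h4] at h5
      simp at h5

/-- the `n`-th point is a point -/
theorem nt_mem (h : Dis m) {n : ℕ} (hn : 1 ≤ n) : m (nt m n) ≠ 0 := by
  intro h0
  have h4 := fibre h (nt_pos h hn) n
  rw [h0, Nat.le_zero, Finset.card_eq_zero] at h4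
  have h5 : n ∈ (Finset.Icc 1 n).filter fun n' => nt m n' = nt m n := by
    rw [Finset.mem_filter, Finset.mem_Icc]
    exact ⟨⟨hn, le_rfl⟩, rfl⟩
  rw [h4] at h5
  simp at h5

end Pool.Agent.Q278.TR
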