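import Pool.Agent.Q278.TR.C
import Pool.Agent.Q278.TR.D

set_option autoImplicit false

/-!
# The `n`-th zero of the average is close to the `n`-th zero
-/

namespace Pool.Agent.Q278.TR

open Complex Set Metric Filter Topology
open Pool.Agent.H24R2.DZ (NN)
open Pool.Agent.Q246.SA (Sy ord_pos)
open Pool.Agent.Q246.NC (ordNat_zero)
open Pool.Agent.Q278.ES (Gd LX)
open scoped ComplexConjugate

variable {κ : ℝ} {H X Z : ℂ → ℂ}

/-- multiplicities on the line -/
noncomputable def mu (F : ℂ → ℂ) (t : ℝ) : ℕ := analyticOrderNatAt F (t * I)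

theorem ball_axis {F : ℂ → ℂ} (hFd : Differentiable ℂ F) (hF : ∀ z, F z = 0 → z.re = 0) {b : ℝ}
    (hb0 : F (b * I) ≠ 0) :
    ∑ᶠ z ∈ ball ((b / 2 : ℝ) * I : ℂ) (b / 2), analyticOrderNatAt F z = cn (mu F) b := by
  have hinj : Function.Injective (fun t : ℝ => (t : ℂ) * I) := by
    intro t t' h
    have := congrArg Complex.im h
    simpa using this
  have e : ball ((b / 2 : ℝ) * I : ℂ) (b / 2) ∩ Function.support (analyticOrderNatAt F) =
      (fun t : ℝ => (t : ℂ) * I) '' (Ioc 0 b ∩ Function.support (mu F)) := by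
    ext z
    constructor
    · rintro ⟨h1, h2⟩
      rw [Function.mem_support] at h2
      have h3 : F z = 0 := by
        by_contra hcon
        exact h2 (ordNat_zero hFd hcon)
      have h4 := hF z h3
      have e1 : z = (z.im : ℂ) * I := by apply Complex.ext <;> simp [h4]
      rw [mem_ball, dist_eq_norm] at h1
      have e2 : z - ((b / 2 : ℝ) * I : ℂ) = ((z.im - b / 2 : ℝ) : ℂ) * I := by
        apply Complex.ext <;> simp [h4]
      rw [e2, norm_mul, Complex.norm_I, mul_one, Complex.norm_real, Real.norm_eq_abs, abs_lt] at h1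
      refine ⟨z.im, ⟨⟨by linarith [h1.1], by linarith [h1.2]⟩, ?_⟩, e1.symm⟩
      rw [Function.mem_support]
      unfold mu
      rw [← e1]
      exact h2
    · rintro ⟨t, ⟨⟨h1, h2⟩, h3⟩, rfl⟩
      rw [Function.mem_support] at h3
      have h4 : F (t * I) = 0 := by
        by_contra hcon
        exact h3 (ordNat_zero hFd hcon)
      have h5 : t ≠ b := by
        rintro rfl
        exact hb0 h4
      have h6 : t < b := lt_of_le_of_ne h2 h5
      refine ⟨?_, h3⟩
      rw [mem_ball, dist_eq_norm]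
      have e2 : (t : ℂ) * I - ((b / 2 : ℝ) * I : ℂ) = ((t - b / 2 : ℝ) : ℂ) * I := by
        push_cast
        ring
      show ‖(t : ℂ) * I - ((b / 2 : ℝ) * I : ℂ)‖ < b / 2
      rw [e2, norm_mul, Complex.norm_I, mul_one, Complex.norm_real, Real.norm_eq_abs, abs_lt]
      constructor <;> linarith
  unfold cn
  rw [← finsum_mem_inter_support, e, finsum_mem_image hinj.injOn, ← finsum_mem_inter_support (f := mu F) (s := Ioc 0 b)]
  rfl

theorem mu_zero (h : Sy X) : mu (Ave X 0) = mu X := by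
  funext t
  unfold mu
  have e : Ave X 0 = fun z => 2 * X z := by
    funext z
    unfold Ave
    rw [Complex.ofReal_zero, add_zero, sub_zero]
    ring
  have h2 := Pool.Agent.Q246.NC.ordNat_mul (X := fun _ => (2 : ℂ)) (Y := X) (by fun_prop) h.diff ⟨0, two_ne_zero⟩
    ⟨1, h.ne_one⟩ (t * I)
  rw [e, h2, ordNat_zero (X := fun _ => (2 : ℂ)) (by fun_prop) two_ne_zero, zero_add]

/-- **Equality of the counts.** -/
theorem cn_ave (h : Sy X) (hR : ∀ b, X b = 0 → b.re = 0) {s0 b : ℝ} (hs0 : 0 ≤ s0) (hb : 0 < b)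
    (h1 : ∀ s : ℝ, 0 ≤ s → s ≤ s0 → Ave X s 0 ≠ 0) (h2 : ∀ s : ℝ, 0 ≤ s → s ≤ s0 → Ave X s (b * I) ≠ 0) :
    cn (mu (Ave X s0)) b = cn (mu X) b := by
  have h3 := count_eq h hR hs0 hb h1 h2
  rw [ball_axis (ave_diff h.diff s0) (fun z hz => ave_re h hR hs0 hz) (h2 s0 hs0 le_rfl),
    ball_axis (ave_diff h.diff 0) (fun z hz => ave_re h hR le_rfl hz) (h2 0 le_rfl hs0), mu_zero h] at h3
  exact h3

/-- the logarithmic derivative at a good height -/
theorem ld_gd_norm (hd : Differentiable ℂ X) {a η r y : ℝ} (ha : 0 ≤ a) (hη : η ≤ 1) (hr : 0 < r)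
    (hg : Gd X a η r y) {y' : ℝ} (h1 : |y' - y| ≤ r) : ‖logDeriv X ((r : ℂ) + y' * I)‖ ≤ 2 * a / r := by
  obtain ⟨t', ht', hN⟩ := hg
  have hrc : (r : ℂ) ≠ 0 := by exact_mod_cast hr.ne'
  obtain ⟨v, hv⟩ : ∃ v : ℝ, v = (y' - t') / r := ⟨_, rfl⟩
  have hy' : y' = t' + r * v := by rw [hv]; field_simp; ring
  have hv1 : |v| ≤ 2 := by
    have h4 : |r * v| ≤ r * 2 := by
      have e : r * v = (y' - y) + (y - t') := by rw [hy']; ring
      rw [e]
      exact (abs_add_le _ _).trans (by linarith)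
    rw [abs_mul, abs_of_pos hr] at h4
    exact le_of_mul_le_mul_left h4 hr
  have e1 : I * t' + r * ((1 : ℂ) + v * I) = (r : ℂ) + y' * I := by
    rw [hy']
    push_cast
    ring
  obtain ⟨h6, h7⟩ := hN.far ((1 : ℂ) + v * I) (by simp; norm_num) (by
    refine (norm_add_le _ _).trans ?_
    rw [norm_mul, Complex.norm_real, Complex.norm_I, norm_one, Real.norm_eq_abs]
    linarith)
  have h8 : logDeriv (fun z : ℂ => X (I * t' + r * z)) ((1 : ℂ) + v * I) = r * logDeriv X ((r : ℂ) + y' * I) := by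
    rw [logDeriv_apply, logDeriv_apply]
    have h9 : HasDerivAt (fun z : ℂ => X (I * t' + r * z)) (deriv X (I * t' + r * ((1 : ℂ) + v * I)) * (r : ℂ))
        ((1 : ℂ) + v * I) := by
      have h10 : HasDerivAt (fun z : ℂ => I * t' + r * z) (r : ℂ) ((1 : ℂ) + v * I) := by
        have := ((hasDerivAt_id ((1 : ℂ) + v * I)).const_mul (r : ℂ)).const_add (I * t')
        simpa using this
      exact (hd _).hasDerivAt.comp _ h10
    rw [h9.deriv, e1]
    ring
  rw [h8] at h7
  have h9 : ‖(r : ℂ) * logDeriv X ((r : ℂ) + y' * I)‖ ≤ 2 * a := by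
    have h10 := norm_add_le ((r : ℂ) * logDeriv X ((r : ℂ) + y' * I) - a) (a : ℂ)
    rw [sub_add_cancel, Complex.norm_real, Real.norm_of_nonneg ha] at h10
    nlinarith
  rw [norm_mul, Complex.norm_real, Real.norm_of_nonneg hr.le] at h9
  rw [le_div_iff₀ hr]
  linarith

/-- a point away from finitely many points -/
theorem free_point (S : Finset ℝ) (lo x : ℝ) (hx : 0 < x) (M : ℕ) (hM : S.card < M) :
    ∃ b, lo < b ∧ b < lo + x ∧ ∀ t ∈ S, x / (2 * M) ≤ |t - b| := by
  classical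
  have hM0 : (0 : ℝ) < M := by exact_mod_cast (Nat.zero_le _).trans_lt hM
  by_contra hcon
  push Not at hcon
  obtain ⟨bk, hbk⟩ : ∃ bk : ℕ → ℝ, bk = fun k : ℕ => lo + (2 * k + 1) * (x / (2 * M)) := ⟨_, rfl⟩
  have hq : 0 < x / (2 * M) := by positivity
  have hqM : 2 * M * (x / (2 * M)) = x := by field_simp
  have hk : ∀ k ∈ Finset.range M, ∃ t ∈ S, |t - bk k| < x / (2 * M) := by
    intro k hk
    rw [Finset.mem_range] at hk
    have h1 : (k : ℝ) + 1 ≤ M := by exact_mod_cast hk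
    have h0 : (0 : ℝ) ≤ k := Nat.cast_nonneg k
    refine hcon (bk k) ?_ ?_
    · rw [hbk]
      have : 0 < (2 * (k : ℝ) + 1) * (x / (2 * M)) := by positivity
      linarith
    · rw [hbk]
      have : (2 * (k : ℝ) + 1) * (x / (2 * M)) < 2 * M * (x / (2 * M)) := by
        apply mul_lt_mul_of_pos_right _ hq
        linarith
      linarith
  choose! f hf1 hf2 using hk
  have hinj : Set.InjOn f (Finset.range M) := by
    intro k hk' l hl' he
    have h1 := hf2 k hk'
    have h2 := hf2 l hl'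
    rw [he] at h1
    by_contra hne
    have h3 : |bk k - bk l| < 2 * (x / (2 * M)) := by
      have e : bk k - bk l = -(f l - bk k) + (f l - bk l) := by ring
      rw [e]
      refine lt_of_le_of_lt (abs_add_le _ _) ?_
      rw [abs_neg]
      linarith
    have h4 : bk k - bk l = 2 * (x / (2 * M)) * ((k : ℝ) - l) := by rw [hbk]; ring
    rw [h4, abs_mul, abs_of_pos (by positivity : 0 < 2 * (x / (2 * M)))] at h3
    have h5 : |(k : ℝ) - l| < 1 := by
      have : 2 * (x / (2 * M)) * |(k : ℝ) - l| < 2 * (x / (2 * M)) * 1 := by linarith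
      exact lt_of_mul_lt_mul_left this (by positivity)
    have h6 : |(k : ℤ) - l| < 1 := by exact_mod_cast h5
    have h7 := Int.abs_lt_one_iff.1 h6
    omega
  have h1 := Finset.card_le_card_of_injOn f hf1 hinj
  rw [Finset.card_range] at h1
  omega

/-- **Points where the averages do not vanish.** -/
theorem near (h : Sy X) (hR : ∀ b, X b = 0 → b.re = 0) {a η r y0 x : ℝ} (ha : 1 ≤ a) (hη1 : η ≤ 1)
    (hr : 0 < r) (hg : Gd X a η r y0) (hx : 0 < x) (hxr : x ≤ r / 2) {M : ℕ} (hM : 80 * a < M) {lo : ℝ}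
    (hlo : y0 - x ≤ lo) (hlo2 : lo ≤ y0) {s0 : ℝ} (hsr : s0 ≤ r)
    (hs0 : s0 * ((2 + 2 * r / (x / (2 * M))) * (2 * a / r)) ≤ 1 / 4) :
    ∃ b, lo < b ∧ b < lo + x ∧ ∀ s, 0 ≤ s → s ≤ s0 → Ave X s (b * I) ≠ 0 := by
  classical
  have hM0 : (0 : ℝ) < M := by linarith
  have hM1 : (1 : ℝ) ≤ M := by linarith
  obtain ⟨t', ht', hN⟩ := id hg
  -- the zeros near
  obtain ⟨Zr, hZr⟩ : ∃ Zr : Set ℂ, Zr = {z | X z = 0 ∧ ‖z - I * t'‖ ≤ 2 * r} := ⟨_, rfl⟩
  have hcard : ∀ S : Finset ℂ, (↑S : Set ℂ) ⊆ Zr → (S.card : ℝ) ≤ 80 * a := by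
    intro S hS
    refine le_trans ?_ (x_count h.diff ha hη1 hr hN S (fun z hz => ?_))
    · rw [Finset.card_eq_sum_ones]
      push_cast
      apply Finset.sum_le_sum
      intro z hz
      have : z ∈ Zr := hS hz
      rw [hZr] at this
      exact ord_pos h.diff ⟨1, h.ne_one⟩ this.1
    · have : z ∈ Zr := hS hz
      rw [hZr] at this
      exact this.2
  have hfin : Zr.Finite := by
    by_contra hinf
    obtain ⟨S, hS, hc⟩ := (Set.not_finite.1 hinf : Zr.Infinite).exists_subset_card_eq (⌊80 * a⌋₊ + 1)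
    have h1 := hcard S hS
    rw [hc] at h1
    push_cast at h1
    have := Nat.lt_floor_add_one (80 * a)
    linarith
  have hc2 := hcard hfin.toFinset (by rw [Set.Finite.coe_toFinset])
  obtain ⟨b, hb1, hb2, hb3⟩ := free_point (hfin.toFinset.image Complex.im) lo x hx M (by
    have h1 : (hfin.toFinset.image Complex.im).card ≤ hfin.toFinset.card := Finset.card_image_le
    have h2 : ((hfin.toFinset.image Complex.im).card : ℝ) < M := by
      have h3 : ((hfin.toFinset.image Complex.im).card : ℝ) ≤ hfin.toFinset.card := by exact_mod_cast h1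
      linarith
    exact_mod_cast h2)
  refine ⟨b, hb1, hb2, fun s hs hs' => ?_⟩
  have hx' : 0 < x / (2 * M) := by positivity
  have hx'2 : x / (2 * M) ≤ x / 2 := by
    apply div_le_div_of_nonneg_left hx.le (by norm_num)
    linarith
  have hdist : ∀ c, X c = 0 → x / (2 * M) ≤ |c.im - b| := by
    intro c hc
    by_cases hcr : ‖c - I * t'‖ ≤ 2 * r
    · apply hb3
      rw [Finset.mem_image]
      refine ⟨c, ?_, rfl⟩
      rw [Set.Finite.mem_toFinset, hZr]
      exact ⟨hc, hcr⟩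
    · push Not at hcr
      have h1 := hR c hc
      have e : c - I * t' = ((c.im - t' : ℝ) : ℂ) * I := by
        apply Complex.ext <;> simp [h1]
      rw [e, norm_mul, Complex.norm_I, mul_one, Complex.norm_real, Real.norm_eq_abs] at hcr
      have h2 : |b - t'| ≤ r / 2 + r / 100 := by
        have e2 : b - t' = (b - y0) + (y0 - t') := by ring
        rw [e2]
        refine (abs_add_le _ _).trans (add_le_add ?_ ht')
        rw [abs_le]
        constructor <;> linarith
      have h3 : |c.im - t'| ≤ |c.im - b| + |b - t'| := by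
        have e3 : c.im - t' = (c.im - b) + (b - t') := by ring
        rw [e3]
        exact abs_add_le _ _
      linarith
  have hB := ld_gd_norm h.diff (by linarith) hη1 hr hg (y' := b) (by rw [abs_le]; constructor <;> linarith)
  have hkey := re_ne h hR (x := x / (2 * M)) (y := b) (B := 2 * a / r) hx' hs (hs'.trans hsr) hr hdist hB (by
    refine le_trans ?_ hs0
    gcongr)
  exact hkey

/-- **The displacement of the `n`-th zero.** -/
theorem displacement (h : Sy X) (hR : ∀ b, X b = 0 → b.re = 0) {a η r x : ℝ} (ha : 1 ≤ a) (hη1 : η ≤ 1)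
    (hr : 0 < r) (hx : 0 < x) (hxr : x ≤ r / 2) {M : ℕ} (hM : 80 * a < M) {s0 : ℝ} (hs : 0 ≤ s0) (hsr : s0 ≤ r)
    (hs0 : s0 * ((2 + 2 * r / (x / (2 * M))) * (2 * a / r)) ≤ 1 / 4)
    (h1 : ∀ s : ℝ, 0 ≤ s → s ≤ s0 → Ave X s 0 ≠ 0) (hD : Dis (mu X)) (hD' : Dis (mu (Ave X s0))) {n : ℕ}
    (hn : 1 ≤ n) (hy : x < nt (mu X) n) (hg : Gd X a η r (nt (mu X) n)) :
    |nt (mu (Ave X s0)) n - nt (mu X) n| ≤ x := by
  obtain ⟨y0, hy0⟩ : ∃ y0 : ℝ, y0 = nt (mu X) n := ⟨_, rfl⟩
  rw [← hy0] at hy hg ⊢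
  obtain ⟨b1, g1, g2, g3⟩ := near h hR ha hη1 hr hg hx hxr hM (lo := y0 - x) le_rfl (by linarith) hsr hs0
  obtain ⟨b2, g4, g5, g6⟩ := near h hR ha hη1 hr hg hx hxr hM (lo := y0) (by linarith) le_rfl hsr hs0
  have e1 := cn_ave h hR hs (show 0 < b1 by linarith) h1 g3
  have e2 := cn_ave h hR hs (show 0 < b2 by linarith) h1 g6
  rw [abs_le]
  constructor
  · have h3 : cn (mu X) b1 < n := cn_lt hD (by linarith) (by rw [← hy0]; linarith)
    rw [← e1] at h3
    have h4 : ¬ nt (mu (Ave X s0)) n ≤ b1 := by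
      rw [nt_le_iff hD' (by linarith)]
      omega
    push Not at h4
    linarith
  · have h3 : n ≤ cn (mu X) b2 := by
      rw [← nt_le_iff hD (by linarith), ← hy0]
      linarith
    rw [← e2] at h3
    have h4 : nt (mu (Ave X s0)) n ≤ b2 := by
      rw [nt_le_iff hD' (by linarith)]
      exact h3
    linarith

end Pool.Agent.Q278.TR
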