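import Pool.Agent.Q278.TR.E
import Pool.Agent.Q278.ZA.B

set_option autoImplicit false

/-!
# Zeta: counts
-/

namespace Pool.Agent.Q278.TR

open Complex Set Metric Filter Topology
open Pool.Agent.H24R2.JP (XX)
open Pool.Agent.Q246.SA (Sy ord_pos FF_tot FF_count)
open Pool.Agent.Q246.NC (ordNat_zero)
open Pool.Agent.Q278.ES (Gd LX)
open Pool.Agent.Q278.ZA (lx_zeta sy_zeta HZ ZZ)
open scoped ComplexConjugate

theorem dis_fin {F : ℂ → ℂ} (hF : Differentiable ℂ F) {z0 : ℂ} (hne : F z0 ≠ 0) (T : ℝ) :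
    {t : ℝ | 0 < t ∧ t ≤ T ∧ mu F t ≠ 0}.Finite := by
  have hK : IsCompact ((fun t : ℝ => (t : ℂ) * I) '' Icc 0 T) := isCompact_Icc.image (by fun_prop)
  have hfin := Pool.Agent.W605.SD.fin_zeros hF hne hK
  have hinj : Function.Injective (fun t : ℝ => (t : ℂ) * I) := by
    intro t t' h
    have := congrArg Complex.im h
    simpa using this
  refine Set.Finite.of_finite_image (f := fun t : ℝ => (t : ℂ) * I) (hfin.subset ?_) hinj.injOn
  rintro z ⟨t, ⟨h1, h2, h3⟩, rfl⟩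
  refine ⟨⟨t, ⟨h1.le, h2⟩, rfl⟩, ?_⟩
  by_contra hcon
  exact h3 (ordNat_zero hF hcon)

/-- counting through windows -/
theorem cn_windows {m : ℝ → ℕ} (h : Dis m) {T W : ℝ} (hT : 0 ≤ T) (hW0 : 0 ≤ W)
    (hW : ∀ (k : ℕ) (S : Finset ℝ), (k : ℝ) ≤ T → (∀ t ∈ S, (k : ℝ) ≤ t ∧ t ≤ k + 1) → (∑ t ∈ S, (m t : ℝ)) ≤ W) :
    (cn m T : ℝ) ≤ (T + 1) * W := by
  rw [cn_eq h]
  push_cast
  have hmaps : ∀ t ∈ pts h T, ⌊t⌋₊ ∈ Finset.range (⌊T⌋₊ + 1) := by
    intro t ht
    rw [mem_pts] at ht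
    rw [Finset.mem_range, Nat.lt_succ_iff]
    exact Nat.floor_le_floor ht.2.1
  rw [← Finset.sum_fiberwise_of_maps_to hmaps]
  have h1 : ∀ k ∈ Finset.range (⌊T⌋₊ + 1), ∑ t ∈ (pts h T).filter (fun t => ⌊t⌋₊ = k), (m t : ℝ) ≤ W := by
    intro k hk
    rw [Finset.mem_range, Nat.lt_succ_iff] at hk
    refine hW k _ ((Nat.le_floor_iff hT).1 hk) fun t ht => ?_
    rw [Finset.mem_filter, mem_pts] at ht
    obtain ⟨⟨h2, h3, -⟩, h4⟩ := ht
    rw [← h4]
    exact ⟨Nat.floor_le h2.le, (Nat.lt_floor_add_one t).le⟩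
  refine (Finset.sum_le_sum h1).trans ?_
  rw [Finset.sum_const, Finset.card_range, nsmul_eq_mul]
  apply mul_le_mul_of_nonneg_right _ hW0
  push_cast
  have := Nat.floor_le hT
  linarith

section zeta

/-- sums over real points and over points of the line -/
theorem sum_line (F : ℂ → ℂ) (S : Finset ℝ) :
    ∑ t ∈ S, (mu F t : ℝ) = ∑ z ∈ S.image (fun t : ℝ => (t : ℂ) * I), (analyticOrderNatAt F z : ℝ) := by
  rw [Finset.sum_image]
  · rfl
  · intro t _ t' _ h
    have := congrArg Complex.im h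
    simpa using this

theorem XX_even (z : ℂ) : XX (-z) = XX z := by
  have h := Pool.Agent.H24R2.JP.b1
  rw [← h.2.1, ← h.2.1, neg_sq]

theorem XX_zero : XX 0 ≠ 0 := by
  intro h0
  have h1 := Pool.Agent.H24R2.JP.gamT.1 0
  unfold Pool.Agent.H24R2.JP.gam at h1
  rw [mul_zero, iteratedDeriv_zero, h0] at h1
  simp at h1

theorem ave_zero (hR : ∀ b, XX b = 0 → b.re = 0) (s : ℝ) (hs : 0 ≤ s) : Ave XX s 0 ≠ 0 := by
  unfold Ave
  rw [zero_add, zero_sub, XX_even]
  intro h0
  have h1 : XX (s : ℂ) = 0 := by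
    have : (2 : ℂ) * XX s = 0 := by rw [two_mul]; exact h0
    exact (mul_eq_zero.1 this).resolve_left two_ne_zero
  have h2 := hR _ h1
  rw [Complex.ofReal_re] at h2
  rw [h2, Complex.ofReal_zero] at h1
  exact XX_zero h1

theorem fin_X (T : ℝ) : {t : ℝ | 0 < t ∧ t ≤ T ∧ mu XX t ≠ 0}.Finite :=
  dis_fin sy_zeta.diff sy_zeta.ne_one T

/-- lower bound for the number of zeros, given finiteness only -/
theorem cn_ge {m : ℝ → ℕ} {T : ℝ} (hfin : {t : ℝ | 0 < t ∧ t ≤ T ∧ m t ≠ 0}.Finite) (S : Finset ℝ)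
    (hS : ∀ t ∈ S, 0 < t ∧ t ≤ T) : ∑ t ∈ S, m t ≤ cn m T := by
  classical
  unfold cn
  rw [← finsum_mem_inter_support]
  have e : Ioc (0 : ℝ) T ∩ Function.support m = ↑hfin.toFinset := by
    ext t
    rw [Finset.mem_coe, Set.Finite.mem_toFinset]
    simp only [mem_inter_iff, mem_Ioc, Function.mem_support, and_assoc]
    rfl
  rw [e, finsum_mem_coe_finset]
  have h1 : ∑ t ∈ S, m t = ∑ t ∈ S.filter (fun t => m t ≠ 0), m t := by
    rw [Finset.sum_filter]
    refine Finset.sum_congr rfl fun t _ => ?_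
    split_ifs with h
    · rfl
    · exact not_not.1 h
  rw [h1]
  apply Finset.sum_le_sum_of_subset
  intro t ht
  rw [Finset.mem_filter] at ht
  rw [Set.Finite.mem_toFinset]
  exact ⟨(hS t ht.1).1, (hS t ht.1).2, ht.2⟩

theorem cn_low (hR : ∀ b, XX b = 0 → b.re = 0) : ∃ c T0 : ℝ, 0 < c ∧ 2 ≤ T0 ∧ ∀ T, T0 ≤ T →
    c * T * Real.log T ≤ cn (mu XX) T := by
  classical
  obtain ⟨c, T0, hc, hT0, h⟩ := Pool.Agent.W803.SD.totd
  refine ⟨c, T0, hc, hT0, fun T hT => ?_⟩
  have hl : 0 < Real.log T := Real.log_pos (by linarith)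
  have hT' : 0 < T := by linarith
  obtain ⟨S, hS, h1⟩ := h 0 T hT (by
    have : 0 ≤ c * T * Real.log T := by positivity
    simpa using this)
  have hS' : ∀ s ∈ S, XX s = 0 ∧ 0 < s.im ∧ s.im ≤ T := by
    intro s hs
    have := hS s hs
    rw [iteratedDeriv_zero] at this
    exact this
  refine h1.trans ?_
  have hinj : Set.InjOn Complex.im (S : Set ℂ) := by
    intro s hs s' hs' he
    apply Complex.ext
    · rw [hR s (hS' s hs).1, hR s' (hS' s' hs').1]
    · exact he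
  have h2 := cn_ge (m := mu XX) (T := T) (fin_X T) (S.image Complex.im) (by
    intro t ht
    obtain ⟨s, hs, rfl⟩ := Finset.mem_image.1 ht
    exact (hS' s hs).2)
  have h3 : S.card ≤ ∑ t ∈ S.image Complex.im, mu XX t := by
    rw [← Finset.card_image_of_injOn hinj, Finset.card_eq_sum_ones]
    apply Finset.sum_le_sum
    intro t ht
    obtain ⟨s, hs, rfl⟩ := Finset.mem_image.1 ht
    have h4 := ord_pos sy_zeta.diff ⟨1, sy_zeta.ne_one⟩ (hS' s hs).1
    have e : s = (s.im : ℂ) * I := by apply Complex.ext <;> simp [hR s (hS' s hs).1]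
    unfold mu
    rw [← e]
    exact_mod_cast h4
  exact_mod_cast h3.trans h2

theorem dis_X (hR : ∀ b, XX b = 0 → b.re = 0) : Dis (mu XX) where
  fin := fin_X
  unb := by
    intro n
    obtain ⟨c, T0, hc, hT0, h⟩ := cn_low hR
    obtain ⟨T, hT⟩ : ∃ T : ℝ, T = max T0 (max 3 (n / c)) := ⟨_, rfl⟩
    have h1 : T0 ≤ T := by rw [hT]; exact le_max_left _ _
    have h2 : 3 ≤ T := by rw [hT]; exact (le_max_left _ _).trans (le_max_right _ _)
    have h3 : n / c ≤ T := by rw [hT]; exact (le_max_right _ _).trans (le_max_right _ _)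
    refine ⟨T, by linarith, ?_⟩
    have h4 := h T h1
    have h5 : 1 ≤ Real.log T := by
      rw [Real.le_log_iff_exp_le (by linarith)]
      have := Real.exp_one_lt_d9
      linarith
    rw [div_le_iff₀ hc] at h3
    have h6 : (n : ℝ) ≤ cn (mu XX) T := by
      refine le_trans ?_ h4
      have : 0 ≤ c * T := by positivity
      nlinarith
    exact_mod_cast h6

theorem log_aux {T : ℝ} (hT : 2 ≤ T) : Real.log (T + 4) ≤ 3 * Real.log T := by
  have e : 3 * Real.log T = Real.log (T ^ 3) := by rw [Real.log_pow]; norm_num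
  rw [e]
  refine Real.log_le_log (by linarith) ?_
  nlinarith [mul_self_nonneg (T - 2), mul_pos (by linarith : 0 < T) (by linarith : 0 < T)]

theorem cn_up (hR : ∀ b, XX b = 0 → b.re = 0) : ∃ C : ℝ, 0 < C ∧ ∀ T, 2 ≤ T → (cn (mu XX) T : ℝ) ≤ C * T * Real.log T := by
  classical
  obtain ⟨K, hK, hwin⟩ := x_win lx_zeta
  refine ⟨6 * K, by positivity, fun T hT => ?_⟩
  have hl : 0 < Real.log T := Real.log_pos (by linarith)
  have h1 := cn_windows (dis_X hR) (T := T) (W := K * (3 * Real.log T)) (by linarith) (by positivity)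
    (fun k S hk hS => by
      rw [sum_line]
      refine (hwin ((k : ℝ) + 1 / 2) _ (by have : (0 : ℝ) ≤ k := Nat.cast_nonneg k; linarith) (fun z hz => ?_)).trans ?_
      · obtain ⟨t, ht, rfl⟩ := Finset.mem_image.1 hz
        obtain ⟨g1, g2⟩ := hS t ht
        simp only [Complex.mul_re, Complex.ofReal_re, Complex.I_re, mul_zero, Complex.ofReal_im, Complex.I_im, mul_one,
          sub_zero, abs_zero, Complex.mul_im, add_zero]
        refine ⟨by norm_num, ?_⟩
        rw [abs_le]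
        constructor <;> linarith
      · apply mul_le_mul_of_nonneg_left _ hK.le
        refine le_trans (Real.log_le_log ?_ ?_) (log_aux hT)
        · have : (0 : ℝ) ≤ k := Nat.cast_nonneg k
          linarith
        · linarith)
  refine h1.trans ?_
  have h2 : T + 1 ≤ 2 * T := by linarith
  calc (T + 1) * (K * (3 * Real.log T)) ≤ 2 * T * (K * (3 * Real.log T)) := by gcongr
    _ = _ := by ring

theorem ave_ne (s : ℝ) (hs : 0 < s) : Ave XX s 1 ≠ 0 := by
  intro h0
  rw [ave_fs] at h0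
  obtain ⟨b, hb, h2⟩ := Pool.Agent.Q246.SA.FF_bad sy_zeta hs (ω := -1) (by simp) h0 (Or.inl (by simp))
  have h3 := sy_zeta.strip b hb
  have h4 : b.re ^ 2 ≤ (1 / 2) ^ 2 := by
    rw [← sq_abs]
    have := abs_nonneg b.re
    gcongr
  rw [Complex.one_re] at h2
  nlinarith [sq_nonneg s, sq_nonneg ((1 : ℂ).im - b.im)]

/-- the averages have many zeros -/
theorem ave_low (hR : ∀ b, XX b = 0 → b.re = 0) : ∃ c T0 : ℝ, 0 < c ∧ 2 ≤ T0 ∧ ∀ s T : ℝ, T0 ≤ T →
    1 / Real.log T ≤ s → s ≤ 1 → c * T * Real.log T ≤ cn (mu (Ave XX s)) T := by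
  classical
  obtain ⟨c, T0, hc, hT0, h⟩ := FF_tot sy_zeta Pool.Agent.Q278.ZA.cf_zeta le_rfl
  refine ⟨c, T0, hc, hT0, fun s T hT hs hs1 => ?_⟩
  have hl : 0 < Real.log T := Real.log_pos (by linarith)
  have hs0 : 0 < s := lt_of_lt_of_le (by positivity) hs
  obtain ⟨S, hS, h1⟩ := h s T (-1) hT hs hs1 (by simp)
  have e0 : Pool.Agent.Q246.SA.FF XX s (-1) = Ave XX s := by
    rw [ave_fs]
    rfl
  rw [e0] at h1 hS
  refine h1.trans ?_
  have hinj : Set.InjOn Complex.im (S : Set ℂ) := by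
    intro z hz z' hz' he
    apply Complex.ext
    · rw [ave_re sy_zeta hR hs0.le (hS z hz).1, ave_re sy_zeta hR hs0.le (hS z' hz').1]
    · exact he
  have h2 := cn_ge (m := mu (Ave XX s)) (T := T) (dis_fin (ave_diff sy_zeta.diff s) (ave_ne s hs0) T) (S.image Complex.im) (by
    intro t ht
    obtain ⟨z, hz, rfl⟩ := Finset.mem_image.1 ht
    exact (hS z hz).2)
  have h3 : ∑ z ∈ S, analyticOrderNatAt (Ave XX s) z = ∑ t ∈ S.image Complex.im, mu (Ave XX s) t := by
    rw [Finset.sum_image hinj]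
    refine Finset.sum_congr rfl fun z hz => ?_
    have e : z = (z.im : ℂ) * I := by
      apply Complex.ext <;> simp [ave_re sy_zeta hR hs0.le (hS z hz).1]
    unfold mu
    rw [← e]
  rw [← h3] at h2
  exact_mod_cast h2

theorem dis_ave (hR : ∀ b, XX b = 0 → b.re = 0) {s : ℝ} (hs : 0 < s) (hs1 : s ≤ 1) : Dis (mu (Ave XX s)) where
  fin := dis_fin (ave_diff sy_zeta.diff s) (ave_ne s hs)
  unb := by
    intro n
    obtain ⟨c, T0, hc, hT0, h⟩ := ave_low hR
    obtain ⟨T, hT⟩ : ∃ T : ℝ, T = max T0 (max (Real.exp (1 / s)) (max 3 (n / c))) := ⟨_, rfl⟩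
    have h1 : T0 ≤ T := by rw [hT]; exact le_max_left _ _
    have h0 : Real.exp (1 / s) ≤ T := by rw [hT]; exact (le_max_left _ _).trans (le_max_right _ _)
    have h2 : 3 ≤ T := by
      rw [hT]
      exact (le_max_left _ _).trans ((le_max_right _ _).trans (le_max_right _ _))
    have h3 : n / c ≤ T := by
      rw [hT]
      exact (le_max_right _ _).trans ((le_max_right _ _).trans (le_max_right _ _))
    refine ⟨T, by linarith, ?_⟩
    have h5 : 1 / s ≤ Real.log T := by rwa [Real.le_log_iff_exp_le (by linarith)]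
    have hlp : 0 < Real.log T := Real.log_pos (by linarith)
    have h4 := h s T h1 (by
      rw [div_le_iff₀ hlp]
      rw [div_le_iff₀ hs] at h5
      linarith) hs1
    have h5' : 1 ≤ Real.log T := by
      rw [Real.le_log_iff_exp_le (by linarith)]
      have := Real.exp_one_lt_d9
      linarith
    rw [div_le_iff₀ hc] at h3
    have h6 : (n : ℝ) ≤ cn (mu (Ave XX s)) T := by
      refine le_trans ?_ h4
      have : 0 ≤ c * T := by positivity
      nlinarith
    exact_mod_cast h6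

end zeta

end Pool.Agent.Q278.TR
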