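import Pool.Agent.Q278.TR.F

set_option autoImplicit false

/-!
# Zeta: displacement of the zeros
-/

namespace Pool.Agent.Q278.TR

open Complex Set Metric Filter Topology
open Pool.Agent.H24R2.JP (XX)
open Pool.Agent.Q278.ES (Gd LX)
open Pool.Agent.Q278.ZA (lx_zeta sy_zeta HZ ZZ)

theorem nt_tends {m : ℝ → ℕ} (h : Dis m) (A : ℝ) : ∃ N0 : ℕ, ∀ N, N0 ≤ N → A < nt m N := by
  refine ⟨cn m (max A 1) + 1, fun N hN => ?_⟩
  by_contra hcon
  push Not at hcon
  have h1 : nt m N ≤ max A 1 := hcon.trans (le_max_left _ _)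
  rw [nt_le_iff h (lt_of_lt_of_le one_pos (le_max_right _ _))] at h1
  omega

theorem log_small (K : ℝ) : ∃ A : ℝ, 3 ≤ A ∧ ∀ T, A ≤ T → K * Real.log T ≤ T := by
  have h1 : ∀ᶠ T : ℝ in atTop, ‖Real.log T‖ ≤ 1 / (|K| + 1) * ‖T‖ := by
    have := Real.isLittleO_log_id_atTop.bound (show 0 < 1 / (|K| + 1) by positivity)
    exact this
  obtain ⟨A, hA⟩ := eventually_atTop.1 (h1.and (eventually_ge_atTop (3 : ℝ)))
  refine ⟨max A 3, le_max_right _ _, fun T hT => ?_⟩
  obtain ⟨h2, h3⟩ := hA T ((le_max_left _ _).trans hT)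
  have h4 : 0 < Real.log T := Real.log_pos (by linarith)
  rw [Real.norm_of_nonneg h4.le, Real.norm_of_nonneg (by linarith : (0:ℝ) ≤ T), div_mul_eq_mul_div, one_mul,
    le_div_iff₀ (by positivity)] at h2
  have h5 := le_abs_self K
  nlinarith

theorem asym (hR : ∀ b, XX b = 0 → b.re = 0) : ∃ c C : ℝ, ∃ N1 : ℕ, 0 < c ∧ 0 < C ∧ 1 ≤ N1 ∧ ∀ N : ℕ, N1 ≤ N →
    4 ≤ nt (mu XX) N ∧ c * nt (mu XX) N * Real.log (nt (mu XX) N) ≤ N ∧
    (N : ℝ) ≤ C * nt (mu XX) N * Real.log (nt (mu XX) N) ∧ Real.log N ≤ 2 * Real.log (nt (mu XX) N) ∧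
    Real.log (nt (mu XX) N) ≤ 2 * Real.log N := by
  obtain ⟨c, T0, hc, hT0, hlow⟩ := cn_low hR
  obtain ⟨C, hC, hup⟩ := cn_up hR
  have hD := dis_X hR
  obtain ⟨A1, hA1, hl1⟩ := log_small C
  obtain ⟨A2, hA2⟩ : ∃ A2 : ℝ, A2 = max (max (2 * T0) 4) (max A1 (max 4 (4 / c) ^ 2)) := ⟨_, rfl⟩
  obtain ⟨N0, hN0⟩ := nt_tends hD A2
  refine ⟨c / 4, C, N0 + 1, by positivity, hC, by omega, fun N hN => ?_⟩
  have h1 := hN0 N (by omega)
  have hN1 : 1 ≤ N := by omega
  obtain ⟨T, hT⟩ : ∃ T : ℝ, T = nt (mu XX) N := ⟨_, rfl⟩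
  rw [← hT] at h1 ⊢
  have g1 : 2 * T0 ≤ T := ((le_max_left _ _).trans (le_max_left _ _)).trans (by rw [← hA2]; exact h1.le)
  have g2 : 4 ≤ T := ((le_max_right _ _).trans (le_max_left _ _)).trans (by rw [← hA2]; exact h1.le)
  have g3 : A1 ≤ T := ((le_max_left _ _).trans (le_max_right _ _)).trans (by rw [← hA2]; exact h1.le)
  have g4 : max 4 (4 / c) ^ 2 ≤ T := ((le_max_right _ _).trans (le_max_right _ _)).trans (by rw [← hA2]; exact h1.le)
  have hl : 0 < Real.log T := Real.log_pos (by linarith)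
  have hT0' : 0 < T := by linarith
  have hlT1 : 1 ≤ Real.log T := by
    rw [Real.le_log_iff_exp_le hT0']
    have := Real.exp_one_lt_d9
    linarith
  have g5 : (N : ℝ) ≤ C * T * Real.log T := by
    have h2 := le_cn hD hN1
    rw [← hT] at h2
    refine le_trans ?_ (hup T (by linarith))
    exact_mod_cast h2
  have g6 : c / 4 * T * Real.log T ≤ N := by
    have h2 : cn (mu XX) (T / 2) < N := cn_lt hD (by linarith) (by rw [← hT]; linarith)
    have h3 := hlow (T / 2) (by linarith)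
    have h4 : Real.log T ≤ 2 * Real.log (T / 2) := by
      have e : 2 * Real.log (T / 2) = Real.log ((T / 2) ^ 2) := by rw [Real.log_pow]; norm_num
      rw [e]
      apply Real.log_le_log hT0'
      nlinarith
    have h5 : ((cn (mu XX) (T / 2) : ℕ) : ℝ) ≤ N := by exact_mod_cast h2.le
    have h6 : c / 4 * T * Real.log T ≤ c / 4 * T * (2 * Real.log (T / 2)) := by gcongr
    have h7 : c / 4 * T * (2 * Real.log (T / 2)) = c * (T / 2) * Real.log (T / 2) := by ring
    linarith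
  have hNpos : (0 : ℝ) < N := by exact_mod_cast hN1
  refine ⟨g2, g6, g5, ?_, ?_⟩
  · have e : 2 * Real.log T = Real.log (T ^ 2) := by rw [Real.log_pow]; norm_num
    rw [e]
    apply Real.log_le_log hNpos
    have := hl1 T g3
    calc (N : ℝ) ≤ C * T * Real.log T := g5
      _ = T * (C * Real.log T) := by ring
      _ ≤ T * T := by gcongr
      _ = T ^ 2 := by ring
  · have e : 2 * Real.log N = Real.log ((N : ℝ) ^ 2) := by rw [Real.log_pow]; norm_num
    rw [e]
    apply Real.log_le_log hT0'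
    have h7 : c / 4 * T ≤ N := by
      refine le_trans ?_ g6
      have : 0 < c / 4 * T := by positivity
      nlinarith
    have h8 : 1 ≤ (c / 4) ^ 2 * T := by
      have h9 : 4 / c ≤ max 4 (4 / c) := le_max_right _ _
      have h10 : (4 / c) ^ 2 ≤ T := le_trans (by gcongr) g4
      calc (1 : ℝ) = (c / 4) ^ 2 * (4 / c) ^ 2 := by field_simp
        _ ≤ _ := by gcongr
    calc T = 1 * T := by ring
      _ ≤ (c / 4) ^ 2 * T * T := by gcongr
      _ = (c / 4 * T) ^ 2 := by ring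
      _ ≤ (N : ℝ) ^ 2 := by gcongr

theorem block {T y : ℝ} (k0 : ℕ) (h1 : T / 2 ^ k0 < y) (h2 : y ≤ T) :
    ∃ k < k0, T / 2 ^ (k + 1) < y ∧ y ≤ T / 2 ^ k := by
  induction k0 with
  | zero =>
    rw [pow_zero, div_one] at h1
    linarith
  | succ k0 ih =>
    by_cases h3 : y ≤ T / 2 ^ k0
    · exact ⟨k0, Nat.lt_succ_self _, h1, h3⟩
    · push Not at h3
      obtain ⟨k, hk, h4⟩ := ih h3
      exact ⟨k, by omega, h4⟩

theorem geo_half (k0 : ℕ) : ∑ k ∈ Finset.range k0, (1 / 2 : ℝ) ^ (k + 1) ≤ 1 := by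
  have h : ∀ k0 : ℕ, ∑ k ∈ Finset.range k0, (1 / 2 : ℝ) ^ (k + 1) = 1 - (1 / 2) ^ k0 := by
    intro k0
    induction k0 with
    | zero => simp
    | succ k0 ih =>
      rw [Finset.sum_range_succ, ih, pow_succ]
      ring
  rw [h]
  have : (0 : ℝ) ≤ (1 / 2) ^ k0 := by positivity
  linarith

/-- **Displacement is small compared with the mean gap.** -/
theorem quant (hR : ∀ b, XX b = 0 → b.re = 0) {ε θ : ℝ} (hε : 0 < ε) (hθ : 0 < θ) :
    ∃ δ : ℝ, ∃ N0 : ℕ, 0 < δ ∧ ∀ N : ℕ, N0 ≤ N → ∀ s : ℝ, 0 < s → s * Real.log N ≤ δ →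
      (((Finset.Icc 1 N).filter fun n => ε < |nt (mu (Ave XX s)) n - nt (mu XX) n| * Real.log N).card : ℝ) ≤
        θ * N := by
  classical
  obtain ⟨c1, C1, a0, T0, hc1, hC1, ha0, hT0, hbad⟩ := x_bad lx_zeta hR (η := 1 / 2) (by norm_num) (by norm_num)
  obtain ⟨C2, hC2, hup⟩ := cn_up hR
  obtain ⟨c, C, N1, hc, hC, hN1, hasy⟩ := asym hR
  have hD := dis_X hR
  obtain ⟨k0, hk0⟩ : ∃ k0 : ℕ, C2 / c * (1 / 2) ^ k0 ≤ θ / 2 := by
    obtain ⟨k0, hk0⟩ := exists_pow_lt_of_lt_one (show 0 < θ / 2 / (C2 / c) by positivity) (show (1 / 2 : ℝ) < 1 by norm_num)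
    refine ⟨k0, ?_⟩
    rw [lt_div_iff₀ (by positivity)] at hk0
    linarith
  obtain ⟨a, ha, haε, haE⟩ : ∃ a : ℝ, a0 ≤ a ∧ ε ≤ a ∧ C1 / c * Real.exp (-(c1 * a)) ≤ θ / 2 := by
    have h1 : Tendsto (fun a : ℝ => C1 / c * Real.exp (-(c1 * a))) atTop (𝓝 (C1 / c * 0)) := by
      apply Tendsto.const_mul
      exact Real.tendsto_exp_neg_atTop_nhds_zero.comp (tendsto_id.const_mul_atTop hc1)
    rw [mul_zero] at h1
    obtain ⟨a, h2, h3, h4⟩ := ((eventually_ge_atTop a0).and ((eventually_ge_atTop ε).and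
      (h1.eventually (eventually_lt_nhds (show 0 < θ / 2 by positivity))))).exists
    exact ⟨a, h2, h3, h4.le⟩
  have ha1 : 1 ≤ a := ha0.trans ha
  obtain ⟨M, hM⟩ : ∃ M : ℕ, M = ⌊80 * a⌋₊ + 1 := ⟨_, rfl⟩
  have hM1 : 80 * a < M := by
    rw [hM]
    push_cast
    exact Nat.lt_floor_add_one _
  have hM0 : (0 : ℝ) < M := by linarith
  obtain ⟨q, hq⟩ : ∃ q : ℝ, q = 2 + 16 * M * a / ε := ⟨_, rfl⟩
  have hq0 : 0 < q := by rw [hq]; positivity
  obtain ⟨δ, hδ⟩ : ∃ δ : ℝ, δ = min 1 (1 / (8 * q)) := ⟨_, rfl⟩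
  have hδ0 : 0 < δ := by rw [hδ]; positivity
  have hδ1 : δ ≤ 1 := by rw [hδ]; exact min_le_left _ _
  have hδ2 : 8 * q * δ ≤ 1 := by
    have : δ ≤ 1 / (8 * q) := by rw [hδ]; exact min_le_right _ _
    rw [le_div_iff₀ (by positivity)] at this
    linarith
  obtain ⟨A, hA⟩ : ∃ A : ℝ, A = max T0 (Real.exp (200 * a)) := ⟨_, rfl⟩
  have hA0 : T0 ≤ A := by rw [hA]; exact le_max_left _ _
  have hA1 : Real.exp (200 * a) ≤ A := by rw [hA]; exact le_max_right _ _
  have hA2 : 2 ≤ A := hT0.trans hA0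
  obtain ⟨N2, hN2⟩ := nt_tends hD (2 ^ k0 * A)
  obtain ⟨N3, hN3⟩ : ∃ N3 : ℕ, ∀ N : ℕ, N3 ≤ N → 1 ≤ Real.log N := by
    refine ⟨3, fun N hN => ?_⟩
    have : (3 : ℝ) ≤ N := by exact_mod_cast hN
    rw [Real.le_log_iff_exp_le (by linarith)]
    have := Real.exp_one_lt_d9
    linarith
  refine ⟨δ, max (max N1 N2) N3, hδ0, fun N hN s hs hsδ => ?_⟩
  have k1 : N1 ≤ N := (le_max_left _ _).trans ((le_max_left _ _).trans hN)
  have k2 : N2 ≤ N := (le_max_right _ _).trans ((le_max_left _ _).trans hN)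
  have k3 : N3 ≤ N := (le_max_right _ _).trans hN
  have hNone : 1 ≤ N := hN1.trans k1
  have hlN := hN3 N k3
  have hs1 : s ≤ 1 := by nlinarith
  obtain ⟨T, hT⟩ : ∃ T : ℝ, T = nt (mu XX) N := ⟨_, rfl⟩
  obtain ⟨j1, j2, j3, j4, j5⟩ := hasy N k1
  have j6 := hN2 N k2
  rw [← hT] at j1 j2 j3 j4 j5 j6
  have hT0' : 0 < T := by linarith
  have hlT : 0 < Real.log T := Real.log_pos (by linarith)
  have hD' := dis_ave hR hs hs1
  -- the blocks
  obtain ⟨Tk, hTk⟩ : ∃ Tk : ℕ → ℝ, Tk = fun k => T / 2 ^ (k + 1) := ⟨_, rfl⟩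
  obtain ⟨rk, hrk⟩ : ∃ rk : ℕ → ℝ, rk = fun k => 2 * a / Real.log (Tk k) := ⟨_, rfl⟩
  have hTkA : ∀ k < k0, A ≤ Tk k := by
    intro k hk
    rw [hTk]
    have h1 : (2 : ℝ) ^ (k + 1) ≤ 2 ^ k0 := pow_le_pow_right₀ (by norm_num) (by omega)
    show A ≤ T / 2 ^ (k + 1)
    rw [le_div_iff₀ (by positivity)]
    have : A * 2 ^ (k + 1) ≤ A * 2 ^ k0 := by gcongr
    nlinarith
  have hTkT : ∀ k, Tk k ≤ T := by
    intro k
    rw [hTk]
    exact div_le_self hT0'.le (one_le_pow₀ (by norm_num))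
  have hlk : ∀ k < k0, 200 * a ≤ Real.log (Tk k) := by
    intro k hk
    have h1 := hTkA k hk
    rw [Real.le_log_iff_exp_le (by linarith)]
    exact hA1.trans h1
  have hlkT : ∀ k < k0, Real.log (Tk k) ≤ Real.log T := fun k hk =>
    Real.log_le_log (by have := hTkA k hk; linarith) (hTkT k)
  have hrk0 : ∀ k < k0, 0 < rk k := by
    intro k hk
    have := hlk k hk
    rw [hrk]
    have h2 : 0 < Real.log (Tk k) := by linarith
    show 0 < 2 * a / Real.log (Tk k)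
    positivity
  have hrk1 : ∀ k < k0, rk k ≤ 1 / 100 := by
    intro k hk
    have := hlk k hk
    rw [hrk]
    have h2 : 0 < Real.log (Tk k) := by linarith
    show 2 * a / Real.log (Tk k) ≤ 1 / 100
    rw [div_le_iff₀ h2]
    linarith
  have hrka : ∀ k < k0, rk k * Real.log (Tk k) = 2 * a := by
    intro k hk
    have := hlk k hk
    rw [hrk]
    have h2 : 0 < Real.log (Tk k) := by linarith
    show 2 * a / Real.log (Tk k) * Real.log (Tk k) = 2 * a
    field_simp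
  obtain ⟨Bk, hBk⟩ : ∃ Bk : ℕ → Finset ℕ, Bk = fun k => (Finset.Icc 1 N).filter fun n =>
    Tk k < nt (mu XX) n ∧ nt (mu XX) n ≤ 2 * Tk k ∧ ¬ Gd XX a (1 / 2) (rk k) (nt (mu XX) n) := ⟨_, rfl⟩
  have hBc : ∀ k ∈ Finset.range k0, ((Bk k).card : ℝ) ≤ C1 * T * Real.log T * Real.exp (-(c1 * a)) * (1 / 2) ^ (k + 1) := by
    intro k hk
    rw [Finset.mem_range] at hk
    obtain ⟨S, hS1, hS2⟩ := card_le hD N hNone (fun t => Tk k < t ∧ t ≤ 2 * Tk k ∧ ¬ Gd XX a (1 / 2) (rk k) t)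
    have h1 : ((Bk k).card : ℝ) ≤ ∑ t ∈ S, (mu XX t : ℝ) := by
      rw [hBk]
      exact_mod_cast hS2
    rw [sum_line] at h1
    have h2 := hbad (Tk k) (rk k) a (hA0.trans (hTkA k hk)) (hrk0 k hk) (hrk1 k hk) (by have := hrk1 k hk; linarith)
      (by have := hrka k hk; linarith) ha (S.image (fun t : ℝ => (t : ℂ) * I)) (by
        intro z hz
        obtain ⟨t, ht, rfl⟩ := Finset.mem_image.1 hz
        obtain ⟨g1, g2, g3, g4, g5, g6⟩ := hS1 t ht
        have e : ((t : ℂ) * I).im = t := by simp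
        rw [e]
        refine ⟨?_, g4, g5, g6⟩
        by_contra hcon
        exact g3 (Pool.Agent.Q246.NC.ordNat_zero sy_zeta.diff hcon))
    refine h1.trans (h2.trans ?_)
    have h3 : Tk k = T * (1 / 2) ^ (k + 1) := by
      rw [hTk]
      show T / 2 ^ (k + 1) = _
      rw [one_div, inv_pow]
      rfl
    have h4 := hlkT k hk
    have h5 : 0 < Tk k := by have := hTkA k hk; linarith
    calc C1 * Tk k * Real.log (Tk k) * Real.exp (-(c1 * a)) ≤ C1 * Tk k * Real.log T * Real.exp (-(c1 * a)) := by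
          gcongr
      _ = _ := by rw [h3]; ring
  have hsubset : ((Finset.Icc 1 N).filter fun n => ε < |nt (mu (Ave XX s)) n - nt (mu XX) n| * Real.log N) ⊆
      Finset.Icc 1 (cn (mu XX) (T / 2 ^ k0)) ∪ (Finset.range k0).biUnion Bk := by
    intro n hn
    rw [Finset.mem_filter, Finset.mem_Icc] at hn
    obtain ⟨⟨hn1, hn2⟩, hn3⟩ := hn
    rw [Finset.mem_union]
    obtain ⟨y, hy⟩ : ∃ y : ℝ, y = nt (mu XX) n := ⟨_, rfl⟩
    have hyT : y ≤ T := by
      rw [hy, hT]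
      exact nt_mono hD hn2 hNone
    by_cases hy2 : y ≤ T / 2 ^ k0
    · left
      rw [Finset.mem_Icc]
      refine ⟨hn1, ?_⟩
      rwa [hy, nt_le_iff hD (by positivity)] at hy2
    right
    push Not at hy2
    obtain ⟨k, hk, h1, h2⟩ := block k0 hy2 hyT
    rw [Finset.mem_biUnion]
    refine ⟨k, Finset.mem_range.2 hk, ?_⟩
    rw [hBk, Finset.mem_filter, Finset.mem_Icc, ← hy]
    have hTk1 : Tk k < y := by rw [hTk]; exact h1
    have hTk2 : y ≤ 2 * Tk k := by
      rw [hTk]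
      show y ≤ 2 * (T / 2 ^ (k + 1))
      rw [pow_succ]
      refine h2.trans (le_of_eq ?_)
      field_simp
    refine ⟨⟨hn1, hn2⟩, hTk1, hTk2, fun hg => ?_⟩
    have hrp := hrk0 k hk
    have hlp : 0 < Real.log (Tk k) := by have := hlk k hk; linarith
    have hlkT' := hlkT k hk
    have hrka' := hrka k hk
    obtain ⟨x, hx⟩ : ∃ x : ℝ, x = ε / (2 * Real.log T) := ⟨_, rfl⟩
    have hx0 : 0 < x := by rw [hx]; positivity
    have hxl : x * (2 * Real.log T) = ε := by rw [hx]; field_simp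
    have hrl : 2 * a ≤ rk k * Real.log T := by
      rw [← hrka']
      gcongr
    have hxr : x ≤ rk k / 2 := by
      have : x * (2 * Real.log T) ≤ rk k / 2 * (2 * Real.log T) := by linarith
      exact le_of_mul_le_mul_right this (by positivity)
    have hslT : s * Real.log T ≤ 2 * δ := by
      calc s * Real.log T ≤ s * (2 * Real.log N) := by gcongr
        _ ≤ 2 * δ := by linarith
    have hsr : s ≤ rk k := by
      have : s * Real.log T ≤ rk k * Real.log T := by linarith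
      exact le_of_mul_le_mul_right this hlT
    have hsq : s * ((2 + 2 * rk k / (x / (2 * M))) * (2 * a / rk k)) ≤ 1 / 4 := by
      have e1 : (2 + 2 * rk k / (x / (2 * M))) * (2 * a / rk k) = 4 * a / rk k + 8 * M * a / x := by
        field_simp
        ring
      have e2 : 4 * a / rk k = 2 * Real.log (Tk k) := by
        rw [div_eq_iff hrp.ne']
        linarith
      have e3 : 8 * M * a / x = 16 * M * a / ε * Real.log T := by
        rw [hx]
        field_simp
        ring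
      rw [e1, e2, e3]
      have h5 : 2 * Real.log (Tk k) + 16 * M * a / ε * Real.log T ≤ q * Real.log T := by
        rw [hq, add_mul]
        linarith
      calc s * (2 * Real.log (Tk k) + 16 * M * a / ε * Real.log T) ≤ s * (q * Real.log T) := by gcongr
        _ = q * (s * Real.log T) := by ring
        _ ≤ q * (2 * δ) := by gcongr
        _ ≤ 1 / 4 := by linarith
    have hdis := displacement sy_zeta hR ha1 (show (1 / 2 : ℝ) ≤ 1 by norm_num) hrp hx0 hxr hM1 hs.le hsr hsq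
      (fun s' h3 _ => ave_zero hR s' h3) hD hD' hn1 (by
        rw [← hy]
        have h6 := hTkA k hk
        have h7 := hrk1 k hk
        linarith) (by rw [← hy]; exact hg)
    have h8 : |nt (mu (Ave XX s)) n - nt (mu XX) n| * Real.log N ≤ x * (2 * Real.log T) := by
      gcongr
    linarith
  have hcard := Finset.card_le_card hsubset
  have h1 : (((Finset.Icc 1 N).filter fun n => ε < |nt (mu (Ave XX s)) n - nt (mu XX) n| * Real.log N).card : ℝ) ≤
      cn (mu XX) (T / 2 ^ k0) + ∑ k ∈ Finset.range k0, ((Bk k).card : ℝ) := by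
    have h2 := hcard.trans (Finset.card_union_le _ _)
    have h3 := Finset.card_biUnion_le (s := Finset.range k0) (t := Bk)
    rw [Nat.card_Icc, Nat.add_sub_cancel] at h2
    have h4 := h2.trans (Nat.add_le_add_left h3 _)
    exact_mod_cast h4
  refine h1.trans ?_
  have h2 : ∑ k ∈ Finset.range k0, ((Bk k).card : ℝ) ≤ C1 * T * Real.log T * Real.exp (-(c1 * a)) := by
    refine (Finset.sum_le_sum hBc).trans ?_
    rw [← Finset.mul_sum]
    have := geo_half k0
    exact mul_le_of_le_one_right (by positivity) this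
  have h3 : C1 * T * Real.log T * Real.exp (-(c1 * a)) ≤ θ / 2 * N := by
    calc C1 * T * Real.log T * Real.exp (-(c1 * a)) = C1 / c * Real.exp (-(c1 * a)) * (c * T * Real.log T) := by
          field_simp
      _ ≤ θ / 2 * N := by gcongr
  have h4 : (cn (mu XX) (T / 2 ^ k0) : ℝ) ≤ θ / 2 * N := by
    have h5 : 2 ≤ T / 2 ^ k0 := by
      rw [le_div_iff₀ (by positivity)]
      have : (2 : ℝ) ^ k0 * 2 ≤ 2 ^ k0 * A := by gcongr
      linarith
    refine (hup _ h5).trans ?_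
    have h6 : Real.log (T / 2 ^ k0) ≤ Real.log T :=
      Real.log_le_log (by linarith) (div_le_self hT0'.le (one_le_pow₀ (by norm_num)))
    have h7 : T / 2 ^ k0 = T * (1 / 2) ^ k0 := by
      rw [one_div, inv_pow]
      rfl
    calc C2 * (T / 2 ^ k0) * Real.log (T / 2 ^ k0) ≤ C2 * (T / 2 ^ k0) * Real.log T := by gcongr
      _ = C2 / c * (1 / 2) ^ k0 * (c * T * Real.log T) := by rw [h7]; field_simp
      _ ≤ θ / 2 * N := by gcongr
  linarith

end Pool.Agent.Q278.TR
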