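import Pool.Agent.Q278.TR.G

set_option autoImplicit false

/-!
# Zeta: transfer of gap laws
-/

namespace Pool.Agent.Q278.TR

open Complex Set Metric Filter Topology
open Pool.Agent.H24R2.JP (XX)
open Pool.Agent.Q278.ES (Gd LX)
open Pool.Agent.Q278.ZA (lx_zeta sy_zeta HZ ZZ)

/-- the unfolded gap -/
noncomputable def gp (m : ℝ → ℕ) (n : ℕ) : ℝ :=
  (nt m (n + 1) - nt m n) / (2 * Real.pi) * Real.log (nt m n / (2 * Real.pi))

/-- the elementary comparison -/
theorem gap_aux {u v u' v' ε L : ℝ} (hε : 0 < ε) (hε1 : ε ≤ 1) (hL : 1 ≤ L) (h1 : |v - u| * L ≤ ε) (h2 : |v' - u'| * L ≤ ε)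
    (hu : 10 < u) (h3 : 0 ≤ u' - u) (h4 : u' - u ≤ 1) (h5 : Real.log v ≤ 4 * L) :
    |(v' - v) / (2 * Real.pi) * Real.log (v / (2 * Real.pi)) - (u' - u) / (2 * Real.pi) * Real.log (u / (2 * Real.pi))| ≤
      2 * ε := by
  have hpi := Real.pi_gt_three
  have hpi2 := Real.pi_lt_d2
  have hL0 : 0 < L := by linarith
  have e1 : |v - u| ≤ ε := by
    have := abs_nonneg (v - u)
    nlinarith
  have e1' := abs_le.1 e1
  have hv : 9 < v := by linarith
  have k1 : 0 ≤ Real.log (v / (2 * Real.pi)) := by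
    apply Real.log_nonneg
    rw [le_div_iff₀ (by positivity)]
    linarith
  have k2 : Real.log (v / (2 * Real.pi)) ≤ 4 * L := by
    refine le_trans ?_ h5
    apply Real.log_le_log (by positivity)
    apply div_le_self (by linarith)
    linarith
  have k3 : |Real.log (v / (2 * Real.pi)) - Real.log (u / (2 * Real.pi))| ≤ ε := by
    rw [Real.log_div (by linarith) (by positivity), Real.log_div (by linarith) (by positivity)]
    have e : Real.log v - Real.log (2 * Real.pi) - (Real.log u - Real.log (2 * Real.pi)) = Real.log v - Real.log u := by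
      ring
    rw [e]
    have g1 : Real.log v - Real.log u ≤ (v - u) / u := by
      rw [← Real.log_div (by linarith) (by linarith)]
      have := Real.log_le_sub_one_of_pos (show 0 < v / u by positivity)
      refine this.trans (le_of_eq ?_)
      field_simp
    have g2 : Real.log u - Real.log v ≤ (u - v) / v := by
      rw [← Real.log_div (by linarith) (by linarith)]
      have := Real.log_le_sub_one_of_pos (show 0 < u / v by positivity)
      refine this.trans (le_of_eq ?_)
      field_simp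
    have g3 : (v - u) / u ≤ ε := by
      rw [div_le_iff₀ (by linarith)]
      nlinarith
    have g4 : (u - v) / v ≤ ε := by
      rw [div_le_iff₀ (by linarith)]
      nlinarith
    rw [abs_le]
    constructor <;> linarith
  have e : (v' - v) / (2 * Real.pi) * Real.log (v / (2 * Real.pi)) - (u' - u) / (2 * Real.pi) * Real.log (u / (2 * Real.pi)) =
      (((v' - u') - (v - u)) * Real.log (v / (2 * Real.pi)) +
        (u' - u) * (Real.log (v / (2 * Real.pi)) - Real.log (u / (2 * Real.pi)))) / (2 * Real.pi) := by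
    field_simp
    ring
  rw [e, abs_div, abs_of_pos (show 0 < 2 * Real.pi by positivity), div_le_iff₀ (by positivity)]
  refine (abs_add_le _ _).trans ?_
  rw [abs_mul, abs_mul, abs_of_nonneg k1, abs_of_nonneg h3]
  have k4 : |(v' - u') - (v - u)| ≤ |v' - u'| + |v - u| := abs_sub _ _
  have k5 : |(v' - u') - (v - u)| * Real.log (v / (2 * Real.pi)) ≤ 8 * ε := by
    calc |(v' - u') - (v - u)| * Real.log (v / (2 * Real.pi)) ≤ (|v' - u'| + |v - u|) * (4 * L) := by gcongr
      _ = 4 * (|v' - u'| * L + |v - u| * L) := by ring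
      _ ≤ 8 * ε := by linarith
  have k6 : (u' - u) * |Real.log (v / (2 * Real.pi)) - Real.log (u / (2 * Real.pi))| ≤ 1 * ε := by gcongr
  nlinarith

/-- **The gaps are close.** -/
theorem gap_quant (hR : ∀ b, XX b = 0 → b.re = 0) {ε θ : ℝ} (hε : 0 < ε) (hθ : 0 < θ) :
    ∃ δ : ℝ, ∃ N0 : ℕ, 0 < δ ∧ ∀ N : ℕ, N0 ≤ N → ∀ s : ℝ, 0 < s → s * Real.log N ≤ δ →
      (((Finset.Icc 1 N).filter fun n => ε < |gp (mu (Ave XX s)) n - gp (mu XX) n|).card : ℝ) ≤ θ * N := by
  classical
  obtain ⟨ε1, hε1d⟩ : ∃ ε1 : ℝ, ε1 = min (ε / 2) 1 := ⟨_, rfl⟩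
  have hε1 : 0 < ε1 := by rw [hε1d]; positivity
  have hε11 : ε1 ≤ 1 := by rw [hε1d]; exact min_le_right _ _
  have hε12 : 2 * ε1 ≤ ε := by
    have : ε1 ≤ ε / 2 := by rw [hε1d]; exact min_le_left _ _
    linarith
  obtain ⟨δ1, N1, hδ1, hq⟩ := quant hR hε1 (show 0 < θ / 16 by positivity)
  obtain ⟨c, C, N2, hc, hC, hN2, hasy⟩ := asym hR
  have hD := dis_X hR
  obtain ⟨N3, hN3⟩ := nt_tends hD (Real.exp (8 / (c * θ)))
  obtain ⟨N4, hN4⟩ : ∃ N4 : ℕ, (cn (mu XX) 10 : ℝ) ≤ θ / 2 * N4 := by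
    obtain ⟨N4, h4⟩ := exists_nat_ge (cn (mu XX) 10 / (θ / 2))
    refine ⟨N4, ?_⟩
    rw [div_le_iff₀ (by positivity)] at h4
    linarith
  refine ⟨δ1 / 2, max (max (max N1 N2) N3) (max N4 3), by positivity, fun N hN s hs hsδ => ?_⟩
  have k1 : N1 ≤ N := (le_max_left _ _).trans ((le_max_left _ _).trans ((le_max_left _ _).trans hN))
  have k2 : N2 ≤ N := (le_max_right _ _).trans ((le_max_left _ _).trans ((le_max_left _ _).trans hN))
  have k3 : N3 ≤ N := (le_max_right _ _).trans ((le_max_left _ _).trans hN)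
  have k4 : N4 ≤ N := (le_max_left _ _).trans ((le_max_right _ _).trans hN)
  have k5 : 3 ≤ N := (le_max_right _ _).trans ((le_max_right _ _).trans hN)
  have k5' : (3 : ℝ) ≤ N := by exact_mod_cast k5
  obtain ⟨L, hL⟩ : ∃ L : ℝ, L = Real.log ((N + 1 : ℕ) : ℝ) := ⟨_, rfl⟩
  have hL1 : 1 ≤ L := by
    rw [hL, Real.le_log_iff_exp_le (by positivity)]
    have := Real.exp_one_lt_d9
    push_cast
    linarith
  have hL2 : L ≤ 2 * Real.log N := by
    have e : 2 * Real.log N = Real.log ((N : ℝ) ^ 2) := by rw [Real.log_pow]; norm_num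
    rw [hL, e]
    apply Real.log_le_log (by positivity)
    push_cast
    nlinarith
  have hs1 : s * L ≤ δ1 := by nlinarith
  have hsone := hq (N + 1) (by omega) s hs (by rw [← hL]; exact hs1)
  rw [← hL] at hsone
  obtain ⟨v, hv⟩ : ∃ v : ℕ → ℝ, v = nt (mu (Ave XX s)) := ⟨_, rfl⟩
  obtain ⟨u, hu⟩ : ∃ u : ℕ → ℝ, u = nt (mu XX) := ⟨_, rfl⟩
  rw [← hv, ← hu] at hsone
  obtain ⟨j1, j2, j3, j4, j5⟩ := hasy (N + 1) (by omega)
  have j6 := hN3 (N + 1) (by omega)
  rw [← hu] at j1 j2 j3 j4 j5 j6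
  rw [← hL] at j4 j5
  have humono : ∀ n n' : ℕ, n ≤ n' → 1 ≤ n' → u n ≤ u n' := fun n n' h h' => by rw [hu]; exact nt_mono hD h h'
  -- the exceptional sets
  obtain ⟨G1, hG1⟩ : ∃ G1 : Finset ℕ, G1 = (Finset.Icc 1 (N + 1)).filter fun n => ε1 < |v n - u n| * L := ⟨_, rfl⟩
  rw [← hG1] at hsone
  obtain ⟨G2, hG2⟩ : ∃ G2 : Finset ℕ, G2 = (Finset.Icc 1 N).filter fun n => n + 1 ∈ G1 := ⟨_, rfl⟩
  obtain ⟨G4, hG4⟩ : ∃ G4 : Finset ℕ, G4 = (Finset.Icc 1 N).filter fun n => 1 < u (n + 1) - u n := ⟨_, rfl⟩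
  have hG2c : G2.card ≤ G1.card := by
    apply Finset.card_le_card_of_injOn (fun n => n + 1)
    · intro n hn
      rw [Finset.mem_coe, hG2, Finset.mem_filter] at hn
      exact hn.2
    · intro n _ n' _ h
      simpa using h
  have hG4c : (G4.card : ℝ) ≤ u (N + 1) := by
    have h1 : (G4.card : ℝ) ≤ ∑ n ∈ G4, (u (n + 1) - u n) := by
      rw [Finset.card_eq_sum_ones]
      push_cast
      apply Finset.sum_le_sum
      intro n hn
      rw [hG4, Finset.mem_filter] at hn
      exact hn.2.le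
    have h2 : ∑ n ∈ G4, (u (n + 1) - u n) ≤ ∑ n ∈ Finset.Icc 1 N, (u (n + 1) - u n) := by
      apply Finset.sum_le_sum_of_subset_of_nonneg
      · rw [hG4]
        exact Finset.filter_subset _ _
      · intro n hn _
        have := humono n (n + 1) (by omega) (by omega)
        linarith
    have h3 : ∀ N : ℕ, ∑ n ∈ Finset.Icc 1 N, (u (n + 1) - u n) = u (N + 1) - u 1 := by
      intro N
      induction N with
      | zero => simp
      | succ N ih =>
        rw [Finset.sum_Icc_succ_top (by omega), ih]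
        ring
    rw [h3] at h2
    have h4 : 0 < u 1 := by rw [hu]; exact nt_pos hD le_rfl
    linarith
  have hu1 : u (N + 1) ≤ θ / 8 * ((N + 1 : ℕ) : ℝ) := by
    have h1 : 8 / (c * θ) ≤ Real.log (u (N + 1)) := by
      rw [Real.le_log_iff_exp_le (by linarith)]
      exact j6.le
    have h2 : 0 < u (N + 1) := by linarith
    rw [div_le_iff₀ (by positivity)] at h1
    have h3 : u (N + 1) * 8 ≤ θ * (c * u (N + 1) * Real.log (u (N + 1))) := by nlinarith
    have h4 : θ * (c * u (N + 1) * Real.log (u (N + 1))) ≤ θ * ((N + 1 : ℕ) : ℝ) := by gcongr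
    linarith
  have hsubset : ((Finset.Icc 1 N).filter fun n => ε < |gp (mu (Ave XX s)) n - gp (mu XX) n|) ⊆
      ((G1 ∪ G2) ∪ Finset.Icc 1 (cn (mu XX) 10)) ∪ G4 := by
    intro n hn
    rw [Finset.mem_filter, Finset.mem_Icc] at hn
    obtain ⟨⟨hn1, hn2⟩, hn3⟩ := hn
    by_contra hcon
    rw [Finset.mem_union, Finset.mem_union, Finset.mem_union] at hcon
    push Not at hcon
    obtain ⟨⟨⟨g1, g2⟩, g3⟩, g4⟩ := hcon
    rw [hG1, Finset.mem_filter, not_and, Finset.mem_Icc] at g1
    rw [hG2, Finset.mem_filter, not_and, Finset.mem_Icc, hG1, Finset.mem_filter, not_and, Finset.mem_Icc] at g2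
    rw [Finset.mem_Icc, not_and] at g3
    rw [hG4, Finset.mem_filter, not_and, Finset.mem_Icc] at g4
    have h1 := not_lt.1 (g1 ⟨hn1, by omega⟩)
    have h2 := not_lt.1 (g2 ⟨hn1, hn2⟩ ⟨by omega, by omega⟩)
    have h3 : 10 < u n := by
      by_contra hcon
      push Not at hcon
      rw [hu, nt_le_iff hD (by norm_num)] at hcon
      exact g3 hn1 hcon
    have h4 := not_lt.1 (g4 ⟨hn1, hn2⟩)
    have h5 := humono n (n + 1) (by omega) (by omega)
    have h6 : Real.log (v n) ≤ 4 * L := by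
      have h7 : |v n - u n| ≤ 1 := by
        have := abs_nonneg (v n - u n)
        nlinarith
      have h8 := abs_le.1 h7
      have h9 := humono n (N + 1) (by omega) (by omega)
      have h10 : v n ≤ (u (N + 1)) ^ 2 := by nlinarith
      have h11 : Real.log (v n) ≤ 2 * Real.log (u (N + 1)) := by
        have e : 2 * Real.log (u (N + 1)) = Real.log ((u (N + 1)) ^ 2) := by rw [Real.log_pow]; norm_num
        rw [e]
        exact Real.log_le_log (by linarith) h10
      linarith
    have h7 := gap_aux hε1 hε11 hL1 h1 h2 h3 (by linarith) h4 h6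
    unfold gp at hn3
    rw [← hv, ← hu] at hn3
    linarith
  have h1 := (Finset.card_le_card hsubset).trans ((Finset.card_union_le _ _).trans
    (Nat.add_le_add_right ((Finset.card_union_le _ _).trans (Nat.add_le_add_right (Finset.card_union_le _ _) _)) _))
  rw [Nat.card_Icc, Nat.add_sub_cancel] at h1
  have h2 : (((Finset.Icc 1 N).filter fun n => ε < |gp (mu (Ave XX s)) n - gp (mu XX) n|).card : ℝ) ≤
      G1.card + G2.card + cn (mu XX) 10 + G4.card := by exact_mod_cast h1
  have h3 : (G2.card : ℝ) ≤ G1.card := by exact_mod_cast hG2c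
  have h4 : (cn (mu XX) 10 : ℝ) ≤ θ / 2 * N := by
    refine hN4.trans ?_
    have : (N4 : ℝ) ≤ N := by exact_mod_cast k4
    gcongr
  push_cast at hsone hu1
  have hθN : θ ≤ θ * N := by nlinarith
  nlinarith

/-- the total of finitely many zeros of the line -/
theorem sum_le_cn {F : ℂ → ℂ} {T : ℝ} (hfin : {t : ℝ | 0 < t ∧ t ≤ T ∧ mu F t ≠ 0}.Finite) (S : Finset ℂ)
    (hS : ∀ z ∈ S, z.re = 0 ∧ 0 < z.im ∧ z.im ≤ T) : ∑ z ∈ S, (analyticOrderNatAt F z : ℝ) ≤ cn (mu F) T := by
  classical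
  have hinj : Set.InjOn Complex.im (S : Set ℂ) := by
    intro z hz z' hz' he
    apply Complex.ext
    · rw [(hS z hz).1, (hS z' hz').1]
    · exact he
  have h2 := cn_ge (m := mu F) (T := T) hfin (S.image Complex.im) (by
    intro t ht
    obtain ⟨z, hz, rfl⟩ := Finset.mem_image.1 ht
    exact (hS z hz).2)
  have h3 : ∑ z ∈ S, analyticOrderNatAt F z = ∑ t ∈ S.image Complex.im, mu F t := by
    rw [Finset.sum_image hinj]
    refine Finset.sum_congr rfl fun z hz => ?_
    have e : z = (z.im : ℂ) * I := by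
      apply Complex.ext <;> simp [(hS z hz).1]
    unfold mu
    rw [← e]
  rw [← h3] at h2
  exact_mod_cast h2

theorem ave_up (hR : ∀ b, XX b = 0 → b.re = 0) : ∃ K : ℝ, 0 < K ∧ ∀ s T : ℝ, 0 < s → s ≤ 1 → 0 ≤ T →
    (cn (mu (Ave XX s)) T : ℝ) ≤ K * (T + 1) * (Real.log (T + 4) + Real.log (1 / s)) := by
  classical
  obtain ⟨K, hK, hwin⟩ := (Pool.Agent.Q278.ES.base_of lx_zeta).cnt
  refine ⟨K, hK, fun s T hs hs1 hT => ?_⟩
  have hl : 0 < Real.log (T + 4) := Real.log_pos (by linarith)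
  have hls : 0 ≤ Real.log (1 / s) := Real.log_nonneg (by rw [le_div_iff₀ hs]; linarith)
  have h1 := cn_windows (dis_ave hR hs hs1) (T := T) (W := K * (Real.log (T + 4) + Real.log (1 / s))) hT (by positivity)
    (fun k S hk hS => by
      rw [sum_line, ave_fs]
      refine (hwin s ((k : ℝ) + 1 / 2) (-1) hs hs1 (by simp)
        (by have : (0 : ℝ) ≤ k := Nat.cast_nonneg k; linarith) _ (fun z hz => ?_)).trans ?_
      · obtain ⟨t, ht, rfl⟩ := Finset.mem_image.1 hz
        obtain ⟨g1, g2⟩ := hS t ht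
        simp only [Complex.mul_re, Complex.ofReal_re, Complex.I_re, mul_zero, Complex.ofReal_im, Complex.I_im, mul_one,
          sub_zero, abs_zero, Complex.mul_im, add_zero]
        refine ⟨by norm_num, ?_⟩
        rw [abs_le]
        constructor <;> linarith
      · apply mul_le_mul_of_nonneg_left _ hK.le
        have h5 : Real.log (3 + (k + 1 / 2)) ≤ Real.log (T + 4) := by
          apply Real.log_le_log
          · have : (0 : ℝ) ≤ k := Nat.cast_nonneg k
            linarith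
          · linarith
        linarith)
  refine h1.trans (le_of_eq ?_)
  ring

end Pool.Agent.Q278.TR
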