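import Pool.Agent.Q278.TR.H

set_option autoImplicit false

/-!
# Zeta: gaps of the averages beyond the mean gap
-/

namespace Pool.Agent.Q278.TR

open Complex Set Metric Filter Topology
open Pool.Agent.H24R2.JP (XX)
open Pool.Agent.Q278.ES (Gd LX Nice Fs)
open Pool.Agent.Q278.ZA (lx_zeta sy_zeta HZ ZZ)

/-- simplicity gives the count exactly -/
theorem cn_nt {m : ℝ → ℕ} (h : Dis m) (hm : ∀ t, 0 < t → m t ≤ 1) {n : ℕ} (hn : 1 ≤ n) : cn m (nt m n) = n := by
  obtain ⟨T', h1, h2, h3⟩ := left_gap h (nt_pos h hn)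
  have h4 := cn_lt h h1 h2
  have h5 := hm _ (nt_pos h hn)
  have h6 := le_cn h hn
  omega

theorem mu_ave_le (hR : ∀ b, XX b = 0 → b.re = 0) {s : ℝ} (hs : 0 < s) (t : ℝ) : mu (Ave XX s) t ≤ 1 := by
  unfold mu
  by_cases h0 : Ave XX s (t * I) = 0
  · have h1 := ave_simple sy_zeta hR hs h0
    have hd := ave_diff sy_zeta.diff s
    have han : AnalyticAt ℂ (Ave XX s) (t * I) := hd.analyticAt _
    have h2 : analyticOrderAt (Ave XX s) (t * I) = 1 := by
      refine le_antisymm ?_ ?_
      · by_contra hcon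
        push Not at hcon
        have h3 : (2 : ℕ∞) ≤ analyticOrderAt (Ave XX s) (t * I) := by
          exact Order.add_one_le_of_lt hcon
        obtain ⟨g, hg, hg2⟩ := (natCast_le_analyticOrderAt han (n := 2)).1 (by exact_mod_cast h3)
        apply h1
        have h4 : HasDerivAt (fun z : ℂ => (z - t * I) ^ 2 * g z) 0 (t * I) := by
          have h5 : HasDerivAt (fun z : ℂ => (z - t * I) ^ 2) 0 (t * I) := by
            exact (((hasDerivAt_id (t * I : ℂ)).sub_const (t * I : ℂ)).pow 2).congr_deriv (by simp)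
          exact (h5.mul hg.differentiableAt.hasDerivAt).congr_deriv (by simp)
        have h7 : Ave XX s =ᶠ[𝓝 (t * I : ℂ)] fun z => (z - t * I) ^ 2 * g z := by
          filter_upwards [hg2] with z hz
          rw [hz, smul_eq_mul]
        rw [h7.deriv_eq]
        exact h4.deriv
      · rw [ENat.one_le_iff_ne_zero, ne_eq, han.analyticOrderAt_eq_zero, not_not]
        exact h0
    unfold analyticOrderNatAt
    rw [h2]
    rfl
  · rw [Pool.Agent.Q246.NC.ordNat_zero (ave_diff sy_zeta.diff s) h0]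
    exact Nat.zero_le _

/-- the next zero of a nice zero -/
theorem nt_next {F : ℂ → ℂ} (hF : Differentiable ℂ F) (hne : ∃ z, F z ≠ 0) (h : Dis (mu F)) (hm : ∀ t, 0 < t → mu F t ≤ 1)
    {n : ℕ} (hn : 1 ≤ n) {y : ℝ}
    (h1 : nt (mu F) n < y) (h2 : F (y * I) = 0) (h3 : ∀ w : ℂ, F w = 0 → nt (mu F) n < w.im → y ≤ w.im) :
    nt (mu F) (n + 1) = y := by
  have hp := nt_pos h hn
  have hy : 0 < y := hp.trans h1
  have hmy : 1 ≤ mu F y := by
    have := Pool.Agent.Q246.SA.ord_pos hF hne h2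
    exact_mod_cast this
  refine le_antisymm ?_ ?_
  · rw [nt_le_iff h hy]
    obtain ⟨T', g1, g2, g3⟩ := left_gap h hy
    have g4 : n ≤ cn (mu F) (max T' (nt (mu F) n)) := by
      rw [← nt_le_iff h (lt_max_of_lt_left g1)]
      exact le_max_right _ _
    by_cases h5 : nt (mu F) n ≤ T'
    · rw [max_eq_left h5] at g4
      omega
    · push Not at h5
      rw [max_eq_right h5.le] at g4
      -- no points between T' and y besides ...
      obtain ⟨T2, k1, k2, k3⟩ := left_gap h hy
      have e1 : cn (mu F) T' = cn (mu F) T2 := by omega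
      -- the point `nt n` lies in `(T', y)`, contradiction with the count
      have h6 : cn (mu F) (nt (mu F) n) ≤ cn (mu F) y := cn_mono h h1.le
      obtain ⟨T3, l1, l2, l3⟩ := left_gap h hp
      have h7 : 1 ≤ mu F (nt (mu F) n) := Nat.one_le_iff_ne_zero.2 (nt_mem h hn)
      have h8 := cn_lt h g1 h5
      -- direct sum argument
      have h9 : cn (mu F) (nt (mu F) n) + mu F y ≤ cn (mu F) y := by
        rw [cn_eq h, cn_eq h]
        have hnot : y ∉ pts h (nt (mu F) n) := by
          rw [mem_pts]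
          intro hc
          linarith [hc.2.1]
        rw [add_comm, ← Finset.sum_insert hnot]
        apply Finset.sum_le_sum_of_subset
        intro t ht
        rw [Finset.mem_insert, mem_pts] at ht
        rw [mem_pts]
        rcases ht with rfl | ht
        · exact ⟨hy, le_rfl, by omega⟩
        · exact ⟨ht.1, ht.2.1.trans h1.le, ht.2.2⟩
      omega
  · have hm1 : nt (mu F) n < nt (mu F) (n + 1) := by
      have h5 := cn_nt h hm hn
      by_contra hcon
      push Not at hcon
      rw [nt_le_iff h hp, h5] at hcon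
      omega
    have h6 := nt_mem h (show 1 ≤ n + 1 by omega)
    have h7 : F ((nt (mu F) (n + 1) : ℝ) * I) = 0 := by
      by_contra hcon
      exact h6 (Pool.Agent.Q246.NC.ordNat_zero hF hcon)
    have e : (((nt (mu F) (n + 1) : ℝ) : ℂ) * I).im = nt (mu F) (n + 1) := by simp
    have h8 := h3 _ h7 (by rw [e]; exact hm1)
    rwa [e] at h8

/-- **Equal spacing in terms of the numbering.** -/
theorem super (hR : ∀ b, XX b = 0 → b.re = 0) {ε θ : ℝ} (hε : 0 < ε) (hθ : 0 < θ) :
    ∃ K : ℝ, ∃ N0 : ℕ, 0 < K ∧ ∀ N : ℕ, N0 ≤ N → ∀ s : ℝ, 0 < s → s ≤ 1 → K ≤ s * Real.log N →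
      (((Finset.Icc 1 N).filter fun n => ε < |gp (mu (Ave XX s)) n - 1|).card : ℝ) ≤ θ * N := by
  classical
  obtain ⟨η, hηd⟩ : ∃ η : ℝ, η = min (ε / 2) 1 := ⟨_, rfl⟩
  have hη0 : 0 < η := by rw [hηd]; positivity
  have hη1 : η ≤ 1 := by rw [hηd]; exact min_le_right _ _
  have hη2 : η ≤ ε / 2 := by rw [hηd]; exact min_le_left _ _
  obtain ⟨c, C, hc, hC, hprop⟩ := Pool.Agent.Q278.ES.prop_X lx_zeta hη0 hη1
  obtain ⟨K1, hK1, hup⟩ := ave_up hR
  -- the constants
  obtain ⟨K, hK1', hKC⟩ : ∃ K : ℝ, 1 ≤ K ∧ C * Real.exp (-(c * K / 2)) ≤ θ / 2 := by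
    have h1 : Tendsto (fun a : ℝ => C * Real.exp (-(c / 2 * a))) atTop (𝓝 (C * 0)) := by
      apply Tendsto.const_mul
      exact Real.tendsto_exp_neg_atTop_nhds_zero.comp (tendsto_id.const_mul_atTop (by positivity))
    rw [mul_zero] at h1
    obtain ⟨a, h2, h3⟩ := ((eventually_ge_atTop (1 : ℝ)).and
      (h1.eventually (eventually_lt_nhds (show 0 < θ / 2 by positivity)))).exists
    refine ⟨a, h2, le_trans (le_of_eq ?_) h3.le⟩
    ring_nf
  have hK0 : 0 < K := by linarith
  obtain ⟨A, hA⟩ : ∃ A : ℝ, A = Real.exp (8 / ε + 8) := ⟨_, rfl⟩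
  have hA0 : 0 < A := by rw [hA]; exact Real.exp_pos _
  -- limits
  have hlogN : Tendsto (fun N : ℕ => Real.log (N : ℝ)) atTop atTop := Real.tendsto_log_atTop.comp tendsto_natCast_atTop_atTop
  have hlog2 : Tendsto (fun N : ℕ => Real.log (Real.log N) / N) atTop (𝓝 0) := by
    have h1 : Tendsto (fun x : ℝ => Real.log x / x) atTop (𝓝 0) := Real.isLittleO_log_id_atTop.tendsto_div_nhds_zero
    have h2 := (h1.comp hlogN)
    have h3 := h1.comp (tendsto_natCast_atTop_atTop (R := ℝ))
    have h4 := h2.mul h3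
    rw [mul_zero] at h4
    refine h4.congr' ?_
    filter_upwards [hlogN.eventually_gt_atTop 0] with N hN
    simp only [Function.comp]
    field_simp
  have hsqrt : Tendsto (fun N : ℕ => Real.sqrt (N : ℝ)) atTop atTop := Real.tendsto_sqrt_atTop.comp tendsto_natCast_atTop_atTop
  have hmain : Tendsto (fun N : ℕ => K1 * (A + 1) * (Real.log (A + 4) / N + Real.log (Real.log N) / N)) atTop (𝓝 0) := by
    have h1 : Tendsto (fun N : ℕ => Real.log (A + 4) / (N : ℝ)) atTop (𝓝 0) :=
      tendsto_const_nhds.div_atTop tendsto_natCast_atTop_atTop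
    have h2 := (h1.add hlog2).const_mul (K1 * (A + 1))
    simpa using h2
  have hbig : ∀ᶠ N : ℕ in atTop, K1 * (Real.sqrt N + 1) * (Real.log (Real.sqrt N + 4) + Real.log (Real.log N)) < N := by
    have h1 : ∀ᶠ x : ℝ in atTop, ‖Real.log x‖ ≤ 1 / (32 * K1) * ‖x‖ :=
      Real.isLittleO_log_id_atTop.bound (by positivity)
    have h2 := hsqrt.eventually h1
    filter_upwards [h2, hsqrt.eventually_ge_atTop 4, hlogN.eventually_ge_atTop 1, eventually_ge_atTop 1,
      hsqrt.eventually_ge_atTop (8 * K1)] with N g1 g2 g3 g4 g5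
    obtain ⟨x, hx⟩ : ∃ x : ℝ, x = Real.sqrt N := ⟨_, rfl⟩
    rw [← hx] at g1 g2 g5 ⊢
    have hN0 : (0 : ℝ) ≤ N := Nat.cast_nonneg N
    have hxN : x * x = N := by rw [hx]; exact Real.mul_self_sqrt hN0
    have hlx : 0 < Real.log x := Real.log_pos (by linarith)
    rw [Real.norm_of_nonneg hlx.le, Real.norm_of_nonneg (by linarith : 0 ≤ x)] at g1
    have e1 : Real.log (x + 4) ≤ 2 * Real.log x := by
      have e : 2 * Real.log x = Real.log (x ^ 2) := by rw [Real.log_pow]; norm_num
      rw [e]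
      apply Real.log_le_log (by linarith)
      nlinarith
    have e2 : Real.log (Real.log N) ≤ 2 * Real.log x := by
      have e : 2 * Real.log x = Real.log (x ^ 2) := by rw [Real.log_pow]; norm_num
      rw [e, pow_two, hxN]
      apply Real.log_le_log (by linarith)
      exact (Real.log_le_sub_one_of_pos (by linarith [show (0:ℝ) < N by exact_mod_cast g4])).trans (by linarith)
    have e3 : Real.log (x + 4) + Real.log (Real.log N) ≤ 4 * (1 / (32 * K1) * x) := by linarith
    have e4 : K1 * (x + 1) * (Real.log (x + 4) + Real.log (Real.log N)) ≤ K1 * (x + 1) * (4 * (1 / (32 * K1) * x)) := by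
      gcongr
    have e5 : K1 * (x + 1) * (4 * (1 / (32 * K1) * x)) = (x + 1) * x / 8 := by
      field_simp
      norm_num
    have e6 : (x + 1) * x / 8 < N := by
      rw [← hxN]
      nlinarith
    linarith
  obtain ⟨N1, hN1⟩ := eventually_atTop.1 ((hlogN.eventually_ge_atTop 2).and (hbig.and
    ((hmain.eventually (eventually_lt_nhds (show 0 < θ / 2 by positivity))).and (eventually_ge_atTop 16))))
  refine ⟨K, N1, hK0, fun N hN s hs hs1 hsK => ?_⟩
  obtain ⟨g1, g2, g3, g4⟩ := hN1 N hN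
  have hNpos : (0 : ℝ) < N := by
    have : (16 : ℝ) ≤ N := by exact_mod_cast g4
    linarith
  have hNone : 1 ≤ N := by omega
  have hls : Real.log (1 / s) ≤ Real.log (Real.log N) := by
    apply Real.log_le_log (by positivity)
    rw [div_le_iff₀ hs]
    linarith
  have hD := dis_ave hR hs hs1
  have hm := fun t (_ : 0 < t) => mu_ave_le hR hs t
  obtain ⟨T, hT⟩ : ∃ T : ℝ, T = nt (mu (Ave XX s)) N := ⟨_, rfl⟩
  have hTpos : 0 < T := by rw [hT]; exact nt_pos hD hNone
  have hcnT : cn (mu (Ave XX s)) T = N := by rw [hT]; exact cn_nt hD hm hNone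
  have hTs : Real.sqrt N < T := by
    by_contra hcon
    push Not at hcon
    have h1 := cn_mono hD hcon
    rw [hcnT] at h1
    have h2 := hup s (Real.sqrt N) hs hs1 (Real.sqrt_nonneg _)
    have h3 : (N : ℝ) ≤ cn (mu (Ave XX s)) (Real.sqrt N) := by exact_mod_cast h1
    have h4 : K1 * (Real.sqrt N + 1) * (Real.log (Real.sqrt N + 4) + Real.log (1 / s)) ≤
        K1 * (Real.sqrt N + 1) * (Real.log (Real.sqrt N + 4) + Real.log (Real.log N)) := by gcongr
    linarith
  have hT4 : 4 < T := by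
    refine lt_of_le_of_lt ?_ hTs
    rw [Real.le_sqrt (by norm_num) hNpos.le]
    have : (16 : ℝ) ≤ N := by exact_mod_cast g4
    linarith
  have hlT : Real.log N / 2 ≤ Real.log T := by
    rw [← Real.log_sqrt hNpos.le]
    apply Real.log_le_log _ hTs.le
    exact Real.sqrt_pos.2 hNpos
  have hTc : C * T ^ (-(c * s)) ≤ θ / 2 := by
    refine le_trans ?_ hKC
    apply mul_le_mul_of_nonneg_left _ hC.le
    rw [Real.rpow_def_of_pos hTpos]
    apply Real.exp_le_exp.2
    have h1 : c * s * (Real.log N / 2) ≤ c * s * Real.log T := by gcongr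
    have h2 : c * K ≤ c * (s * Real.log N) := by gcongr
    linarith
  -- the exceptional sets
  obtain ⟨P, hP⟩ : ∃ P : ℝ → Prop, P = fun t : ℝ => ¬ Nice (1 / 2) η (Ave XX s) ((t : ℂ) * I) := ⟨_, rfl⟩
  have hsubset : ((Finset.Icc 1 N).filter fun n => ε < |gp (mu (Ave XX s)) n - 1|) ⊆
      Finset.Icc 1 (cn (mu (Ave XX s)) A) ∪ (Finset.Icc 1 N).filter fun n => P (nt (mu (Ave XX s)) n) := by
    intro n hn
    rw [Finset.mem_filter, Finset.mem_Icc] at hn
    obtain ⟨⟨hn1, hn2⟩, hn3⟩ := hn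
    by_contra hcon
    rw [Finset.mem_union] at hcon
    push Not at hcon
    obtain ⟨k1, k2⟩ := hcon
    rw [Finset.mem_Icc, not_and] at k1
    have k3 := k1 hn1
    rw [← nt_le_iff hD hA0] at k3
    push Not at k3
    rw [Finset.mem_filter, not_and, hP, Finset.mem_Icc] at k2
    have k4 := not_not.1 (k2 ⟨hn1, hn2⟩)
    obtain ⟨-, -, y, m1, m2, m3, m4⟩ := k4
    have e : (((nt (mu (Ave XX s)) n : ℝ) : ℂ) * I).im = nt (mu (Ave XX s)) n := by simp
    rw [e] at m1 m3 m4
    have m5 := nt_next (ave_diff sy_zeta.diff s) ⟨1, ave_ne s hs⟩ hD hm hn1 m1 m2 m3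
    obtain ⟨v, hv⟩ : ∃ v : ℝ, v = nt (mu (Ave XX s)) n := ⟨_, rfl⟩
    unfold gp at hn3
    rw [m5, ← hv] at hn3
    rw [← hv] at k3 m4 m1
    have hv0 : 0 < v := hA0.trans k3
    have hlv : 8 / ε + 8 < Real.log v := by
      rw [Real.lt_log_iff_exp_lt hv0, ← hA]
      exact k3
    have h8 : 0 < 8 / ε := by positivity
    have hpi := Real.pi_gt_three
    have hpi2 := Real.pi_lt_d2
    have hl2p0 : 0 ≤ Real.log (2 * Real.pi) := Real.log_nonneg (by linarith)
    have hl2p : Real.log (2 * Real.pi) ≤ 2 := by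
      rw [Real.log_le_iff_le_exp (by positivity)]
      have h9 : (2.7 : ℝ) ≤ Real.exp 1 := by have := Real.exp_one_gt_d9; linarith
      have e : Real.exp 2 = Real.exp 1 * Real.exp 1 := by rw [← Real.exp_add]; norm_num
      rw [e]
      nlinarith
    obtain ⟨g, hg⟩ : ∃ g : ℝ, g = 1 / 2 * Real.log v * (y - v) / Real.pi := ⟨_, rfl⟩
    rw [← hg] at m4
    have m6 := abs_le.1 m4
    have hgap : (y - v) / (2 * Real.pi) * Real.log (v / (2 * Real.pi)) = g - g * (Real.log (2 * Real.pi) / Real.log v) := by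
      rw [Real.log_div hv0.ne' (by positivity), hg]
      have : Real.log v ≠ 0 := by linarith
      field_simp
    rw [hgap] at hn3
    have h10 : g * (Real.log (2 * Real.pi) / Real.log v) ≤ ε / 2 := by
      have h11 : Real.log (2 * Real.pi) / Real.log v ≤ ε / 4 := by
        rw [div_le_iff₀ (by linarith)]
        have h12 : ε / 4 * (8 / ε) = 2 := by field_simp; norm_num
        have h13 : ε / 4 * (8 / ε) ≤ ε / 4 * Real.log v := by
          apply mul_le_mul_of_nonneg_left _ (by positivity)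
          linarith
        linarith
      have h12 : 0 ≤ Real.log (2 * Real.pi) / Real.log v := by
        apply div_nonneg hl2p0
        linarith
      calc g * (Real.log (2 * Real.pi) / Real.log v) ≤ 2 * (ε / 4) := by
            apply mul_le_mul (by linarith) h11 h12 (by norm_num)
        _ = ε / 2 := by ring
    have h10' : 0 ≤ g * (Real.log (2 * Real.pi) / Real.log v) := by
      apply mul_nonneg (by linarith)
      apply div_nonneg hl2p0
      linarith
    have h11 : |g - g * (Real.log (2 * Real.pi) / Real.log v) - 1| ≤ ε := by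
      rw [abs_le]
      constructor <;> linarith
    linarith
  have h1 := (Finset.card_le_card hsubset).trans (Finset.card_union_le _ _)
  rw [Nat.card_Icc, Nat.add_sub_cancel] at h1
  obtain ⟨S, hS1, hS2⟩ := card_le hD N hNone P
  rw [← hT] at hS1
  have hbad : (((Finset.Icc 1 N).filter fun n => P (nt (mu (Ave XX s)) n)).card : ℝ) ≤ θ / 2 * N := by
    have h2 : (((Finset.Icc 1 N).filter fun n => P (nt (mu (Ave XX s)) n)).card : ℝ) ≤ ∑ t ∈ S, (mu (Ave XX s) t : ℝ) := by
      exact_mod_cast hS2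
    rw [sum_line] at h2
    obtain ⟨S', hS', h3⟩ := hprop T s (-1) (by linarith) hs hs1 (by simp) (S.image (fun t : ℝ => (t : ℂ) * I)) (by
      intro z hz
      obtain ⟨t, ht, rfl⟩ := Finset.mem_image.1 hz
      obtain ⟨l1, l2, l3, l4⟩ := hS1 t ht
      have e : ((t : ℂ) * I).im = t := by simp
      rw [e, ← ave_fs]
      refine ⟨?_, l1, l2, ?_⟩
      · by_contra hcon
        exact l3 (Pool.Agent.Q246.NC.ordNat_zero (ave_diff sy_zeta.diff s) hcon)
      · rw [hP] at l4
        exact l4)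
    rw [← ave_fs] at h3 hS'
    have h4 := sum_le_cn (dis_fin (ave_diff sy_zeta.diff s) (ave_ne s hs) T) S' (fun z hz =>
      ⟨ave_re sy_zeta hR hs.le (hS' z hz).1, (hS' z hz).2⟩)
    rw [hcnT] at h4
    refine h2.trans (h3.trans ?_)
    have h5 : 0 ≤ C * T ^ (-(c * s)) := by positivity
    calc C * T ^ (-(c * s)) * ∑ z ∈ S', (analyticOrderNatAt (Ave XX s) z : ℝ) ≤ C * T ^ (-(c * s)) * N := by gcongr
      _ ≤ θ / 2 * N := by gcongr
  have hsmall : (cn (mu (Ave XX s)) A : ℝ) ≤ θ / 2 * N := by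
    refine (hup s A hs hs1 hA0.le).trans ?_
    have h3 : K1 * (A + 1) * (Real.log (A + 4) + Real.log (1 / s)) ≤
        K1 * (A + 1) * (Real.log (A + 4) + Real.log (Real.log N)) := by gcongr
    refine h3.trans ?_
    have h4 : K1 * (A + 1) * (Real.log (A + 4) + Real.log (Real.log N)) =
        K1 * (A + 1) * (Real.log (A + 4) / N + Real.log (Real.log N) / N) * N := by
      field_simp
    rw [h4]
    gcongr
  have h2 : (((Finset.Icc 1 N).filter fun n => ε < |gp (mu (Ave XX s)) n - 1|).card : ℝ) ≤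
      cn (mu (Ave XX s)) A + ((Finset.Icc 1 N).filter fun n => P (nt (mu (Ave XX s)) n)).card := by exact_mod_cast h1
  linarith

end Pool.Agent.Q278.TR
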