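import Pool.Agent.Q278.TR.J
import Pool.Agent.H24R2.JP.Stir
import Pool.Agent.H986R2.DBN.RHReal
import Pool.Agent.Y771.NF.Cnt

set_option autoImplicit false

/-!
# Transfer of laws; the zeta function
-/

namespace Pool.Agent.Q278.TR

open Complex Set Metric Filter Topology
open Pool.Agent.H24R2.JP (XX HH)

/-- **Transfer of laws.** -/
theorem law_transfer {x y : ℕ → ℕ → ℝ}
    (hxy : ∀ ε : ℝ, 0 < ε → Tendsto (fun N : ℕ => (((Finset.Icc 1 N).filter fun n => ε < |y N n - x N n|).card : ℝ) / N)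
      atTop (𝓝 0)) {P : ℝ → ℝ} (hP : ContinuousOn P (Ioi 0))
    (hx : ∀ α β : ℝ, 0 < α → α < β →
      Tendsto (fun N : ℕ => (((Finset.Icc 1 N).filter fun n => α ≤ x N n ∧ x N n ≤ β).card : ℝ) / N) atTop
        (𝓝 (P β - P α))) :
    ∀ α β : ℝ, 0 < α → α < β →
      Tendsto (fun N : ℕ => (((Finset.Icc 1 N).filter fun n => α ≤ y N n ∧ y N n ≤ β).card : ℝ) / N) atTop
        (𝓝 (P β - P α)) := by
  classical
  intro α β hα hαβ
  have hβ : 0 < β := hα.trans hαβ
  rw [Metric.tendsto_atTop]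
  intro e he
  have cα := Metric.continuousAt_iff.1 (hP.continuousAt (Ioi_mem_nhds hα)) (e / 8) (by positivity)
  have cβ := Metric.continuousAt_iff.1 (hP.continuousAt (Ioi_mem_nhds hβ)) (e / 8) (by positivity)
  obtain ⟨r1, hr1, h1⟩ := cα
  obtain ⟨r2, hr2, h2⟩ := cβ
  obtain ⟨κ, hκ⟩ : ∃ κ : ℝ, κ = min (min (r1 / 2) (r2 / 2)) (min (α / 2) ((β - α) / 3)) := ⟨_, rfl⟩
  have hαβ' : 0 < β - α := by linarith
  have hκ0 : 0 < κ := by rw [hκ]; positivity
  have k1 : κ ≤ r1 / 2 := by rw [hκ]; exact (min_le_left _ _).trans (min_le_left _ _)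
  have k2 : κ ≤ r2 / 2 := by rw [hκ]; exact (min_le_left _ _).trans (min_le_right _ _)
  have k3 : κ ≤ α / 2 := by rw [hκ]; exact (min_le_right _ _).trans (min_le_left _ _)
  have k4 : κ ≤ (β - α) / 3 := by rw [hκ]; exact (min_le_right _ _).trans (min_le_right _ _)
  have dα : ∀ z, |z - α| = κ → |P z - P α| < e / 8 := by
    intro z hz
    have := h1 (x := z) (by rw [Real.dist_eq, hz]; linarith)
    rwa [Real.dist_eq] at this
  have dβ : ∀ z, |z - β| = κ → |P z - P β| < e / 8 := by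
    intro z hz
    have := h2 (x := z) (by rw [Real.dist_eq, hz]; linarith)
    rwa [Real.dist_eq] at this
  have a1 := abs_lt.1 (dα (α - κ) (by rw [show α - κ - α = -κ by ring, abs_neg, abs_of_pos hκ0]))
  have a2 := abs_lt.1 (dα (α + κ) (by rw [show α + κ - α = κ by ring, abs_of_pos hκ0]))
  have a3 := abs_lt.1 (dβ (β - κ) (by rw [show β - κ - β = -κ by ring, abs_neg, abs_of_pos hκ0]))
  have a4 := abs_lt.1 (dβ (β + κ) (by rw [show β + κ - β = κ by ring, abs_of_pos hκ0]))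
  obtain ⟨N1, hN1⟩ := Metric.tendsto_atTop.1 (hx (α - κ) (β + κ) (by linarith) (by linarith)) (e / 8) (by positivity)
  obtain ⟨N2, hN2⟩ := Metric.tendsto_atTop.1 (hx (α + κ) (β - κ) (by linarith) (by linarith)) (e / 8) (by positivity)
  obtain ⟨N3, hN3⟩ := Metric.tendsto_atTop.1 (hxy κ hκ0) (e / 8) (by positivity)
  refine ⟨max (max N1 N2) (max N3 1), fun N hN => ?_⟩
  have b1 := hN1 N ((le_max_left _ _).trans ((le_max_left _ _).trans hN))
  have b2 := hN2 N ((le_max_right _ _).trans ((le_max_left _ _).trans hN))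
  have b3 := hN3 N ((le_max_left _ _).trans ((le_max_right _ _).trans hN))
  have b4 : 1 ≤ N := (le_max_right _ _).trans ((le_max_right _ _).trans hN)
  have hNpos : (0 : ℝ) < N := by exact_mod_cast b4
  rw [Real.dist_eq] at b1 b2 b3 ⊢
  have s1 : ((Finset.Icc 1 N).filter fun n => α ≤ y N n ∧ y N n ≤ β) ⊆
      ((Finset.Icc 1 N).filter fun n => α - κ ≤ x N n ∧ x N n ≤ β + κ) ∪
      ((Finset.Icc 1 N).filter fun n => κ < |y N n - x N n|) := by
    intro n hn
    rw [Finset.mem_filter] at hn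
    rw [Finset.mem_union, Finset.mem_filter, Finset.mem_filter]
    by_cases hk : κ < |y N n - x N n|
    · exact Or.inr ⟨hn.1, hk⟩
    · left
      push Not at hk
      have := abs_le.1 hk
      exact ⟨hn.1, by linarith [hn.2.1], by linarith [hn.2.2]⟩
  have s2 : ((Finset.Icc 1 N).filter fun n => α + κ ≤ x N n ∧ x N n ≤ β - κ) ⊆
      ((Finset.Icc 1 N).filter fun n => α ≤ y N n ∧ y N n ≤ β) ∪
      ((Finset.Icc 1 N).filter fun n => κ < |y N n - x N n|) := by
    intro n hn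
    rw [Finset.mem_filter] at hn
    rw [Finset.mem_union, Finset.mem_filter, Finset.mem_filter]
    by_cases hk : κ < |y N n - x N n|
    · exact Or.inr ⟨hn.1, hk⟩
    · left
      push Not at hk
      have := abs_le.1 hk
      exact ⟨hn.1, by linarith [hn.2.1], by linarith [hn.2.2]⟩
  have c1 : (((Finset.Icc 1 N).filter fun n => α ≤ y N n ∧ y N n ≤ β).card : ℝ) / N ≤
      (((Finset.Icc 1 N).filter fun n => α - κ ≤ x N n ∧ x N n ≤ β + κ).card : ℝ) / N +
      (((Finset.Icc 1 N).filter fun n => κ < |y N n - x N n|).card : ℝ) / N := by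
    rw [← add_div]
    apply div_le_div_of_nonneg_right _ hNpos.le
    exact_mod_cast (Finset.card_le_card s1).trans (Finset.card_union_le _ _)
  have c2 : (((Finset.Icc 1 N).filter fun n => α + κ ≤ x N n ∧ x N n ≤ β - κ).card : ℝ) / N ≤
      (((Finset.Icc 1 N).filter fun n => α ≤ y N n ∧ y N n ≤ β).card : ℝ) / N +
      (((Finset.Icc 1 N).filter fun n => κ < |y N n - x N n|).card : ℝ) / N := by
    rw [← add_div]
    apply div_le_div_of_nonneg_right _ hNpos.le
    exact_mod_cast (Finset.card_le_card s2).trans (Finset.card_union_le _ _)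
  have d1 := abs_lt.1 b1
  have d2 := abs_lt.1 b2
  have d3 := abs_lt.1 b3
  rw [abs_lt]
  constructor <;> linarith

/-- from the quantitative form to the limit -/
theorem prop_tends {f : ℝ → ℕ → ℕ → ℝ} {h : ℕ → ℝ} {ε : ℝ} (hpos : ∀ N, 0 < h N)
    (hlim : Tendsto (fun N : ℕ => h N * Real.log N) atTop (𝓝 0))
    (hq : ∀ θ : ℝ, 0 < θ → ∃ δ : ℝ, ∃ N0 : ℕ, 0 < δ ∧ ∀ N : ℕ, N0 ≤ N → ∀ s : ℝ, 0 < s → s * Real.log N ≤ δ →
      (((Finset.Icc 1 N).filter fun n => ε < f s N n).card : ℝ) ≤ θ * N) :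
    Tendsto (fun N : ℕ => (((Finset.Icc 1 N).filter fun n => ε < f (h N) N n).card : ℝ) / N) atTop (𝓝 0) := by
  rw [Metric.tendsto_atTop]
  intro e he
  obtain ⟨δ, N0, hδ, h1⟩ := hq (e / 2) (by positivity)
  obtain ⟨N1, hN1⟩ := Metric.tendsto_atTop.1 hlim δ hδ
  refine ⟨max (max N0 N1) 1, fun N hN => ?_⟩
  have b1 : N0 ≤ N := (le_max_left _ _).trans ((le_max_left _ _).trans hN)
  have b2 := hN1 N ((le_max_right _ _).trans ((le_max_left _ _).trans hN))
  have b4 : 1 ≤ N := (le_max_right _ _).trans hN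
  have hNpos : (0 : ℝ) < N := by exact_mod_cast b4
  rw [Real.dist_eq, sub_zero] at b2 ⊢
  have h2 := h1 N b1 (h N) (hpos N) ((le_abs_self _).trans b2.le)
  rw [abs_of_nonneg (by positivity), div_lt_iff₀ hNpos]
  nlinarith

theorem prop_tends2 {f : ℝ → ℕ → ℕ → ℝ} {h : ℕ → ℝ} {ε : ℝ} (hpos : ∀ N, 0 < h N) (hone : ∀ N, h N ≤ 1)
    (hlim : Tendsto (fun N : ℕ => h N * Real.log N) atTop atTop)
    (hq : ∀ θ : ℝ, 0 < θ → ∃ K : ℝ, ∃ N0 : ℕ, 0 < K ∧ ∀ N : ℕ, N0 ≤ N → ∀ s : ℝ, 0 < s → s ≤ 1 → K ≤ s * Real.log N →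
      (((Finset.Icc 1 N).filter fun n => ε < f s N n).card : ℝ) ≤ θ * N) :
    Tendsto (fun N : ℕ => (((Finset.Icc 1 N).filter fun n => ε < f (h N) N n).card : ℝ) / N) atTop (𝓝 0) := by
  rw [Metric.tendsto_atTop]
  intro e he
  obtain ⟨K, N0, -, h1⟩ := hq (e / 2) (by positivity)
  obtain ⟨N1, hN1⟩ := eventually_atTop.1 (hlim.eventually_ge_atTop K)
  refine ⟨max (max N0 N1) 1, fun N hN => ?_⟩
  have b1 : N0 ≤ N := (le_max_left _ _).trans ((le_max_left _ _).trans hN)
  have b2 := hN1 N ((le_max_right _ _).trans ((le_max_left _ _).trans hN))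
  have b4 : 1 ≤ N := (le_max_right _ _).trans hN
  have hNpos : (0 : ℝ) < N := by exact_mod_cast b4
  rw [Real.dist_eq, sub_zero]
  have h2 := h1 N b1 (h N) (hpos N) (hone N) b2
  rw [abs_of_nonneg (by positivity), div_lt_iff₀ hNpos]
  nlinarith

/-- the multiplicities -/
theorem zeta_ord {t : ℝ} (ht : 0 < t) : analyticOrderNatAt riemannZeta (1 / 2 + t * I) = mu XX t := by
  have him : 0 < ((t : ℂ) * I).im := by simpa using ht
  have hH : AnalyticAt ℂ HH (t * I) := by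
    have hd : DifferentiableOn ℂ HH {z : ℂ | 0 < z.im} := fun z hz =>
      (Pool.Agent.H24R2.JP.StirAux.HH_diff hz).differentiableWithinAt
    exact hd.analyticAt ((isOpen_lt continuous_const Complex.continuous_im).mem_nhds him)
  have hH0 : HH (t * I) ≠ 0 := Pool.Agent.H24R2.JP.StirAux.HH_ne him
  have hg : AnalyticAt ℂ (fun z : ℂ => 1 / 2 + z) (t * I) := by fun_prop
  have hg' : deriv (fun z : ℂ => 1 / 2 + z) ((t : ℂ) * I) ≠ 0 := by
    rw [deriv_const_add, deriv_id'']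
    exact one_ne_zero
  have hne1 : (1 / 2 + (t : ℂ) * I) ≠ 1 := by
    intro h0
    have := congrArg Complex.im h0
    simp at this
    linarith
  have hz : AnalyticAt ℂ riemannZeta (1 / 2 + t * I) := by
    have hd : DifferentiableOn ℂ riemannZeta {z : ℂ | z ≠ 1} := fun z hz =>
      (differentiableAt_riemannZeta hz).differentiableWithinAt
    exact hd.analyticAt (isOpen_ne.mem_nhds hne1)
  have hc : AnalyticAt ℂ (riemannZeta ∘ fun z : ℂ => 1 / 2 + z) (t * I) := by
    apply AnalyticAt.comp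
    · exact hz
    · exact hg
  have h1 := analyticOrderAt_comp_of_deriv_ne_zero (f := riemannZeta) hg hg'
  have h2 : XX =ᶠ[𝓝 ((t : ℂ) * I)] (HH * (riemannZeta ∘ fun z : ℂ => 1 / 2 + z)) := by
    filter_upwards [(isOpen_lt continuous_const Complex.continuous_im).mem_nhds him] with z hz
    exact Pool.Agent.H24R2.JP.zetaS.1 z hz
  have h3 := analyticOrderAt_congr h2
  rw [analyticOrderAt_mul hH hc, hH.analyticOrderAt_eq_zero.2 hH0, zero_add, h1] at h3
  unfold mu analyticOrderNatAt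
  rw [h3]

end Pool.Agent.Q278.TR
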